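import Pool.Agent.Lib.MP_21ae8a_lc.Avg

/-! Indicators, resampling of one coordinate, densities of planted sets and the window lemma. -/

namespace Pool.Agent.Lib.MP_21ae8a_lc.MC

open Finset Function
open scoped BigOperators

open Classical in
/-- The indicator of a proposition. -/
noncomputable def ind (p : Prop) : ℝ := if p then 1 else 0

theorem ind_pos {p : Prop} (h : p) : ind p = 1 := if_pos h

theorem ind_neg {p : Prop} (h : ¬p) : ind p = 0 := if_neg h

theorem ind_nonneg (p : Prop) : 0 ≤ ind p := by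
  by_cases h : p
  · rw [ind_pos h]; exact zero_le_one
  · rw [ind_neg h]

theorem ind_le {p : Prop} {a : ℝ} (ha : 0 ≤ a) (h : p → 1 ≤ a) : ind p ≤ a := by
  by_cases hp : p
  · rw [ind_pos hp]; exact h hp
  · rw [ind_neg hp]; exact ha

theorem ind_le_one (p : Prop) : ind p ≤ 1 := ind_le zero_le_one fun _ => le_rfl

theorem ind_mono {p q : Prop} (h : p → q) : ind p ≤ ind q :=
  ind_le (ind_nonneg q) fun hp => (ind_pos (h hp)).ge

theorem ind_congr {p q : Prop} (h : p ↔ q) : ind p = ind q := by rw [propext h]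

theorem ind_and (p q : Prop) : ind (p ∧ q) = ind p * ind q := by
  by_cases hp : p <;> by_cases hq : q <;> simp [ind, hp, hq]

theorem ind_exists_le {ι : Type} (s : Finset ι) (p : ι → Prop) :
    ind (∃ i ∈ s, p i) ≤ ∑ i ∈ s, ind (p i) :=
  ind_le (sum_nonneg fun _ _ => ind_nonneg _) fun ⟨_, hi, h⟩ =>
    (ind_pos h).ge.trans (single_le_sum (f := fun i => ind (p i)) (fun _ _ => ind_nonneg _) hi)

theorem upd_avg {I A : Type} [Fintype I] [DecidableEq I] [Fintype A] [Nonempty A] (i : I)
    (F : (I → A) → ℝ) : 𝔼 ζ : I → A, 𝔼 x : A, F (update ζ i x) = 𝔼 ζ, F ζ := by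
  have h : Involutive fun p : (I → A) × A => (update p.1 i p.2, p.1 i) := fun p => by simp
  have := Fintype.expect_bijective _ h.bijective (fun p => F (update p.1 i p.2)) (fun p => F p.1)
    fun _ => rfl
  rw [← univ_product_univ, expect_product, expect_product] at this
  simpa only [Fintype.expect_const] using this

theorem avg_prod {I A : Type} [Fintype I] [DecidableEq I] [Fintype A] [Nonempty A]
    (φ : I → A → ℝ) (Λ : Finset I) :
    𝔼 η : I → A, ∏ s ∈ Λ, φ s (η s) = ∏ s ∈ Λ, 𝔼 a, φ s a := by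
  induction Λ using Finset.induction_on with
  | empty => simp
  | insert i Λ hi ih =>
    rw [prod_insert hi, ← ih, ← upd_avg i, mul_expect]
    refine expect_congr rfl fun η _ => ?_
    rw [expect_mul]
    refine expect_congr rfl fun a _ => ?_
    rw [prod_insert hi, update_self]
    congr 1
    exact prod_congr rfl fun s hs => by rw [update_of_ne (ne_of_mem_of_not_mem hs hi)]

section Dens

variable {P : Type} [Fintype P] [DecidableEq P]

/-- The density of the law of `G ∪ H` for uniform `G`. -/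
noncomputable def dens (H G : Finset P) : ℝ := 2 ^ #H * ind (H ⊆ G)

omit [Fintype P] [DecidableEq P] in
theorem dens_nonneg (H G : Finset P) : 0 ≤ dens H G := mul_nonneg (by positivity) (ind_nonneg _)

omit [Fintype P] [DecidableEq P] in
theorem dens_le (H G : Finset P) : dens H G ≤ 2 ^ #H :=
  mul_le_of_le_one_right (by positivity) (ind_le_one _)

omit [Fintype P] [DecidableEq P] in
theorem dens_mono (H : Finset P) {G G' : Finset P} (h : G ⊆ G') : dens H G ≤ dens H G' :=
  mul_le_mul_of_nonneg_left (ind_mono fun h' => h'.trans h) (by positivity)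

theorem avg_insert (e : P) (f : Finset P → ℝ) :
    𝔼 G, f (insert e G) = 𝔼 G, 2 * ind (e ∈ G) * f G := by
  have h : Involutive fun G : Finset P => if e ∈ G then G.erase e else insert e G := fun G => by
    by_cases he : e ∈ G <;> simp [he]
  have h1 := Fintype.expect_bijective _ h.bijective (fun G => ind (e ∉ G) * f (insert e G))
    (fun G => ind (e ∈ G) * f G) fun G => by by_cases he : e ∈ G <;> simp [ind, he]
  have h2 : ∀ G, f (insert e G) = ind (e ∈ G) * f G + ind (e ∉ G) * f (insert e G) := fun G => by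
    by_cases he : e ∈ G <;> simp [ind, he]
  rw [expect_congr rfl fun G _ => h2 G, expect_add_distrib, h1, ← expect_add_distrib]
  exact expect_congr rfl fun G _ => by ring

theorem avg_union (H : Finset P) (f : Finset P → ℝ) :
    𝔼 G, f (G ∪ H) = 𝔼 G, dens H G * f G := by
  induction H using Finset.induction_on generalizing f with
  | empty => simp [dens, ind]
  | insert e H he ih =>
    simp only [union_insert]
    rw [ih fun G => f (insert e G)]
    have h1 : ∀ G, dens H G = dens H (insert e G) := fun G => by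
      rw [dens, dens, ind_congr (subset_insert_iff_of_notMem he)]
    rw [expect_congr rfl fun G _ => by rw [h1 G], avg_insert e fun G => dens H G * f G]
    refine expect_congr rfl fun G _ => ?_
    rw [dens, dens, card_insert_of_notMem he, ind_congr insert_subset_iff, ind_and]
    ring

theorem avg_union_le (H : Finset P) {f : Finset P → ℝ} (hf : ∀ G, 0 ≤ f G) :
    𝔼 G, f (G ∪ H) ≤ 2 ^ #H * 𝔼 G, f G := by
  rw [avg_union, mul_expect]
  exact expect_le_expect fun G _ => mul_le_mul_of_nonneg_right (dens_le H G) (hf G)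

theorem avg_dens (H : Finset P) : 𝔼 G, dens H G = 1 := by
  simpa using (avg_union H fun _ => 1).symm

theorem avg_dens_mul (H H' : Finset P) : 𝔼 G, dens H G * dens H' G = 2 ^ #(H ∩ H') := by
  rw [← avg_union]
  have h1 : ∀ G, dens H' (G ∪ H) = 2 ^ #(H ∩ H') * dens (H' \ H) G := fun G => by
    rw [dens, dens, ← mul_assoc, ← pow_add, inter_comm, add_comm, card_sdiff_add_card_inter,
      ind_congr (show H' ⊆ G ∪ H ↔ H' \ H ⊆ G by rw [union_comm]; exact sdiff_le_iff.symm)]
  simp only [h1, ← mul_expect, avg_dens, mul_one]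

omit [Fintype P] in
theorem dens_biUnion_le {I : Type} [DecidableEq I] (Λ : Finset I) (H : I → Finset P)
    (G : Finset P) : dens (Λ.biUnion H) G ≤ ∏ s ∈ Λ, dens (H s) G := by
  by_cases h : Λ.biUnion H ⊆ G
  · have h1 : ∀ s ∈ Λ, dens (H s) G = 2 ^ #(H s) := fun s hs => by
      rw [dens, ind_pos ((subset_biUnion_of_mem H hs).trans h), mul_one]
    rw [prod_congr rfl h1, prod_pow_eq_pow_sum]
    exact (dens_le _ _).trans (pow_le_pow_right₀ one_le_two card_biUnion_le)
  · rw [dens, ind_neg h, mul_zero]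
    exact prod_nonneg fun _ _ => dens_nonneg _ _

omit [Fintype P] in
/-- A monotone property flips at most once along the slots of a window. -/
theorem window {I A : Type} [Fintype I] [DecidableEq I] [Fintype A] [Nonempty A] {T : ℕ}
    {w : Fin T → I} (hw : Injective w) (piece : A → Finset P) (base : (I → A) → Finset P)
    (hb : ∀ ζ t a, base (update ζ (w t) a) = base ζ) {g : Finset P → Prop} (hg : Monotone g)
    (Low : (I → A) → Prop) (Ev : (I → A) → A → Prop)
    (hE : ∀ ζ a, Ev ζ a → ¬g (base ζ ∪ univ.biUnion fun t => piece (ζ (w t))) ∧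
      g (base ζ ∪ piece a) ∧ ∀ t, Low (update ζ (w t) a)) :
    T * 𝔼 ζ, 𝔼 a, ind (Ev ζ a) ≤
      𝔼 ζ, ind (g (base ζ ∪ univ.biUnion fun t => piece (ζ (w t))) ∧ Low ζ) := by
  let C : ℕ → (I → A) → Finset P := fun k ζ =>
    base ζ ∪ (univ.filter fun t : Fin T => (t : ℕ) < k).biUnion fun t => piece (ζ (w t))
  have hC : ∀ ζ k k', k ≤ k' → C k ζ ⊆ C k' ζ := fun ζ k k' h =>
    union_subset_union_right (biUnion_subset_biUnion_of_subset_left _ fun t ht => by
      simp only [mem_filter, mem_univ, true_and] at ht ⊢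
      omega)
  have hT : ∀ ζ, C T ζ = base ζ ∪ univ.biUnion fun t => piece (ζ (w t)) := fun ζ => by
    simp only [C]
    rw [filter_true_of_mem fun t _ => t.2]
  let Φ : ℕ → (I → A) → ℝ := fun k ζ => ind (g (C k ζ) ∧ Low ζ)
  have h1 : ∀ (t : Fin T) ζ a, ind (Ev ζ a) ≤
      Φ (t + 1) (update ζ (w t) a) - Φ t (update ζ (w t) a) := fun t ζ a => by
    refine ind_le (sub_nonneg.2 (ind_mono fun h => ⟨hg (hC _ _ _ (Nat.le_succ _)) h.1, h.2⟩))
      fun h => ?_
    obtain ⟨e1, e2, e3⟩ := hE ζ a h
    have e4 : C t (update ζ (w t) a) ⊆ C T ζ := by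
      refine union_subset_union (hb ζ t a).subset (biUnion_subset.2 fun t' ht' => ?_)
      have : t' ≠ t := fun h' => by simp [h'] at ht'
      rw [update_of_ne (hw.ne this)]
      exact subset_biUnion_of_mem (fun t => piece (ζ (w t))) (by simp)
    have e5 : base ζ ∪ piece a ⊆ C (t + 1) (update ζ (w t) a) := by
      refine union_subset_union (hb ζ t a).superset ?_
      have := subset_biUnion_of_mem (fun t' => piece (update ζ (w t) a (w t')))
        (show t ∈ univ.filter fun t' : Fin T => (t' : ℕ) < t + 1 by simp)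
      simpa only [update_self] using this
    simp only [Φ]
    rw [ind_pos ⟨hg e5 e2, e3 t⟩, ind_neg fun h' => e1 (hT ζ ▸ hg e4 h'.1), sub_zero]
  have h2 : ∀ t : Fin T, 𝔼 ζ, 𝔼 a, ind (Ev ζ a) ≤ 𝔼 ζ, Φ (t + 1) ζ - 𝔼 ζ, Φ t ζ := fun t => by
    rw [← expect_sub_distrib, ← upd_avg (w t) fun ζ => Φ (t + 1) ζ - Φ t ζ]
    exact expect_le_expect fun ζ _ => expect_le_expect fun a _ => h1 t ζ a
  have h3 := sum_le_sum fun t (_ : t ∈ (univ : Finset (Fin T))) => h2 t
  rw [sum_const, card_univ, Fintype.card_fin, nsmul_eq_mul,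
    Fin.sum_univ_eq_sum_range (fun t => 𝔼 ζ, Φ (t + 1) ζ - 𝔼 ζ, Φ t ζ) T,
    sum_range_sub fun t => 𝔼 ζ, Φ t ζ] at h3
  have h4 : 0 ≤ 𝔼 ζ, Φ 0 ζ := expect_nonneg fun _ _ => ind_nonneg _
  simp only [← hT]
  exact h3.trans (sub_le_self _ h4)

end Dens

end Pool.Agent.Lib.MP_21ae8a_lc.MC
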