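import Pool.Agent.Lib.MP_21ae8a_lc.MC.Count

/-! Monotone circuits of small depth do not see the planted clique. -/

namespace Pool.Agent.Lib.MP_21ae8a_lc.MC

open Finset Function
open scoped BigOperators

/-- Gates with disjunctions of any fan-in. -/
inductive Gt (X : Type) (s : ℕ) : Type
  | inp (x : X)
  | and (j k : Fin s)
  | or (P : Finset (Fin s))
  | not (j : Fin s)

variable {X : Type} {s : ℕ}

/-- The label increases at conjunctions. -/
def Gt.Fits (dp : Fin s → ℕ) (i : Fin s) : Gt X s → Prop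
  | .and j k => dp j < dp i ∧ dp k < dp i
  | .or P => ∀ j ∈ P, dp j ≤ dp i
  | _ => True

/-- The gates that are true when the negations in `A` are set to true and the others to false. -/
inductive Acc (c : Fin s → Gt X s) (A : Finset (Fin s)) (z : X → Prop) : Fin s → Prop
  | inp (i : Fin s) (x : X) : c i = .inp x → z x → Acc c A z i
  | and (i j k : Fin s) : c i = .and j k → Acc c A z j → Acc c A z k → Acc c A z i
  | or (i : Fin s) (P : Finset (Fin s)) (j : Fin s) : c i = .or P → j ∈ P → Acc c A z j →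
      Acc c A z i
  | not (i j : Fin s) : c i = .not j → i ∈ A → Acc c A z i

variable {c : Fin s → Gt X s} {A : Finset (Fin s)} {dp : Fin s → ℕ}

theorem Acc.mono {z z' : X → Prop} (h : ∀ x, z x → z' x) {i : Fin s} (hi : Acc c A z i) :
    Acc c A z' i := by
  induction hi with
  | inp i x h1 h2 => exact .inp i x h1 (h x h2)
  | and i j k h1 _ _ h2 h3 => exact .and i j k h1 h2 h3
  | or i P j h1 h2 _ h3 => exact .or i P j h1 h2 h3
  | not i j h1 h2 => exact .not i j h1 h2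

theorem Acc.cases {z : X → Prop} {i : Fin s} (h : Acc c A z i) :
    (∃ x, c i = .inp x ∧ z x) ∨ (∃ j k, c i = .and j k ∧ Acc c A z j ∧ Acc c A z k) ∨
      (∃ P j, c i = .or P ∧ j ∈ P ∧ Acc c A z j) ∨ ∃ j, c i = .not j ∧ i ∈ A := by
  cases h with
  | inp _ x h1 h2 => exact .inl ⟨x, h1, h2⟩
  | and _ j k h1 h2 h3 => exact .inr (.inl ⟨j, k, h1, h2, h3⟩)
  | or _ P j h1 h2 h3 => exact .inr (.inr (.inl ⟨P, j, h1, h2, h3⟩))
  | not _ j h1 h2 => exact .inr (.inr (.inr ⟨j, h1, h2⟩))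

variable {n D T : ℕ} {zf : Finset (Pos n) → X → Prop}

/-- The gate is true or some degree is high. -/
def gt (c : Fin s → Gt X s) (A : Finset (Fin s)) (zf : Finset (Pos n) → X → Prop) (R : ℕ)
    (i : Fin s) (G : Finset (Pos n)) : Prop := Acc c A (zf G) i ∨ Hi R G

theorem gt_mono (hz : Monotone zf) (R : ℕ) (i : Fin s) : Monotone (gt c A zf R i) :=
  fun _ _ h => Or.imp (Acc.mono (hz h)) (Hi_mono R h)

theorem invariant (hc : ∀ i, (c i).Fits dp i) (hz : Monotone zf)
    (hz2 : ∀ G S x, zf (G ∪ E S) x → ∃ U ⊆ S, #U ≤ 2 ∧ zf (G ∪ E U) x) {v R : ℕ} (hv : 2 ≤ v)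
    {G : Finset (Pos n)} {y : Yt n D T} {z : Zt n D T} {S : Finset (Fin n)}
    (hB : ∀ i, ¬Bad (gt c A zf R i) G y z S v ((dp i - 1) * (6 * v ^ 3)) v) {i : Fin s}
    (hi : Acc c A (zf (G ∪ E S)) i) :
    ∃ U ⊆ S, #U ≤ v ∧ gt c A zf R i (Gam G y z (dp i * (6 * v ^ 3)) U (E U)) := by
  induction hi with
  | inp i x h1 h2 =>
    obtain ⟨U, h3, h4, h5⟩ := hz2 G S x h2
    exact ⟨U, h3, h4.trans hv, Or.inl (.inp i x h1 (hz (union_subset G_sub J_sub) x h5))⟩
  | and i j k h1 _ _ h2 h3 =>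
    obtain ⟨U, hU, hU', h2⟩ := h2
    obtain ⟨V, hV, hV', h3⟩ := h3
    have h4 := hc i
    rw [h1] at h4
    obtain ⟨h4, h5⟩ := h4
    have h6 := gt_mono hz R j (Gam_mono (E_mono (subset_union_left (s₂ := V)))
      (subset_union_left (s₂ := V))
      (Nat.mul_le_mul_right (6 * v ^ 3) (show dp j ≤ dp i - 1 by omega))) h2
    have h7 := gt_mono hz R k (Gam_mono (E_mono (subset_union_right (s₁ := U)))
      (subset_union_right (s₁ := U))
      (Nat.mul_le_mul_right (6 * v ^ 3) (show dp k ≤ dp i - 1 by omega))) h3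
    have h8 := greedy (gt_mono hz R i) hv (hB i) (union_subset hU hV)
      ((card_union_le U V).trans (by omega))
      (h6.elim (fun h6 => h7.elim (fun h7 => Or.inl (.and i j k h1 h6 h7)) Or.inr) Or.inr)
    rwa [← add_one_mul, Nat.sub_add_cancel (by omega)] at h8
  | or i P j h1 h2 _ h3 =>
    obtain ⟨U, hU, hU', h3⟩ := h3
    have h4 := hc i
    rw [h1] at h4
    exact ⟨U, hU, hU', (gt_mono hz R j (Gam_mono Subset.rfl Subset.rfl
      (Nat.mul_le_mul_right _ (h4 j h2))) h3).imp_left (.or i P j h1 h2)⟩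
  | not i j h1 h2 => exact ⟨∅, empty_subset _, Nat.zero_le _, Or.inl (.not i j h1 h2)⟩

/-- The error term. -/
noncomputable def eps (n m v T q s : ℕ) : ℝ :=
  2 / q + n * (5 / 6) ^ q + 6 * v ^ 3 * (m / T + s * (2 ^ v * m / T) ^ (v + 1))

theorem mono_bound [Nonempty (Fin n)] {d m v q : ℕ} (hc : ∀ i, (c i).Fits dp i ∧ dp i ≤ d)
    (hz : Monotone zf) (hz2 : ∀ G S x, zf (G ∪ E S) x → ∃ U ⊆ S, #U ≤ 2 ∧ zf (G ∪ E U) x)
    (hv : 2 ≤ v) (hq : 1 ≤ q) (hT0 : 0 < T) (hm : m ≤ n)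
    (hn : q * (6 * v ^ 3 * (d + 1) * T) ^ 2 ≤ n) (hT : 16 ^ v * m ≤ T) (i : Fin s) :
    𝔼 S ∈ powersetCard m (univ : Finset (Fin n)), 𝔼 G,
      ind (Acc c A (zf (G ∪ E S)) i ∧ ¬Acc c A (zf G) i) ≤ eps n m v T q s := by
  obtain ⟨D, hD⟩ : ∃ D, D = 6 * v ^ 3 * (d + 1) := ⟨_, rfl⟩
  rw [← hD] at hn
  have hn0 := n_pos (n := n)
  have hne : (powersetCard m (univ : Finset (Fin n))).Nonempty :=
    powersetCard_nonempty.2 (by simpa using hm)
  let g := gt c A zf (D * T)
  have hg : ∀ j, Monotone (g j) := gt_mono hz _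
  have hH : ∀ j G, Hi (D * T) G → g j G := fun _ _ => Or.inr
  have h1 : ∀ S (y : Yt n D T) G (z : Zt n D T), ind (Acc c A (zf (G ∪ E S)) i) ≤
      ∑ j, ind (Bad (g j) G y z S v ((dp j - 1) * (6 * v ^ 3)) v) +
        ind (Bad (g i) G y z S v (d * (6 * v ^ 3)) 0) +
        ind (g i (G ∪ (lv D T D).biUnion (sta z))) := fun S y G z => by
    have e1 : 0 ≤ ∑ j, ind (Bad (g j) G y z S v ((dp j - 1) * (6 * v ^ 3)) v) :=
      sum_nonneg fun _ _ => ind_nonneg _
    have e2 := ind_nonneg (Bad (g i) G y z S v (d * (6 * v ^ 3)) 0)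
    have e3 := ind_nonneg (g i (G ∪ (lv D T D).biUnion (sta z)))
    refine ind_le (by positivity) fun h => ?_
    by_cases hB : ∃ j ∈ univ, Bad (g j) G y z S v ((dp j - 1) * (6 * v ^ 3)) v
    · have := (ind_pos hB).ge.trans (ind_exists_le _ _)
      linarith
    by_cases hB' : Bad (g i) G y z S v (d * (6 * v ^ 3)) 0
    · have := ind_pos hB'
      linarith
    obtain ⟨U, h2, h3, h4⟩ := invariant (fun i => (hc i).1) hz hz2 hv
      (fun j h => hB ⟨j, mem_univ _, h⟩) h
    obtain ⟨U', _, h5, h6⟩ := greedy (hg i) hv hB' h2 (by omega) (hg i (Gam_mono Subset.rfl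
      Subset.rfl (Nat.mul_le_mul_right _ (hc i).2)) h4)
    obtain rfl : U' = ∅ := card_eq_zero.1 (by omega)
    rw [← add_one_mul, mul_comm, ← hD, E_empty, Gam, biUnion_empty, union_empty,
      union_empty] at h6
    have := ind_pos h6
    linarith
  have hR0 : 0 < D * T := by rw [hD]; positivity
  have h2 := neutral hR0 (le_trans (Nat.le_mul_of_pos_left _ hq) hn) (f := fun G => ind (g i G))
    (fun _ => ind_nonneg _) (fun _ => ind_le_one _) (lv D T D)
  have h3 : (#(lv D T D) : ℝ) * (2 * (D * T : ℕ) / n) ≤ 2 / q := by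
    have e1 : (#(lv D T D) : ℝ) ≤ (D * T : ℕ) := by exact_mod_cast card_lv D
    have e2 : (q : ℝ) * ((D * T : ℕ) : ℝ) ^ 2 ≤ n := by exact_mod_cast hn
    refine (mul_le_mul_of_nonneg_right e1 (by positivity)).trans ?_
    rw [← mul_div_assoc, div_le_div_iff₀ hn0 (by exact_mod_cast hq)]
    nlinarith
  have h4 : 𝔼 G, ind (g i G) ≤ 𝔼 G, ind (Acc c A (zf G) i) + n * (5 / 6) ^ q := by
    refine le_trans ?_ (add_le_add_right (avg_Hi hn) _)
    rw [← expect_add_distrib]
    refine expect_le_expect fun G _ => ind_le (add_nonneg (ind_nonneg _) (ind_nonneg _)) ?_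
    rintro (h | h)
    · exact (ind_pos h).ge.trans (le_add_of_nonneg_right (ind_nonneg _))
    · exact (ind_pos h).ge.trans (le_add_of_nonneg_left (ind_nonneg _))
  have h5 := expect_le_expect (s := powersetCard m (univ : Finset (Fin n))) fun S _ =>
    expect_le_expect (s := univ) fun y _ => expect_le_expect (s := univ) fun G _ =>
      expect_le_expect (s := univ) fun z _ => h1 S y G z
  simp only [expect_add_distrib, expect_sum_comm, Fintype.expect_const, expect_const hne] at h5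
  rw [expect_comm univ univ fun G (z : Zt n D T) =>
    ind (g i (G ∪ (lv D T D).biUnion (sta z)))] at h5
  have h6 := sum_le_card_nsmul univ _ _ fun j _ => avg_Bad (hg j) (hH j) hT0 (lo := v)
    (a := (dp j - 1) * (6 * v ^ 3)) hm hT (by
      rw [← add_one_mul, hD, mul_comm]
      exact Nat.mul_le_mul_left _ (by have := (hc j).2; omega))
  have h7 := avg_Bad (hg i) (hH i) hT0 (lo := 0) (a := d * (6 * v ^ 3)) hm hT
    (by rw [← add_one_mul, hD, mul_comm])
  have h8 : (4 : ℝ) ^ (v + 1).choose 2 * ((m : ℝ) / T) ^ (v + 1) = (2 ^ v * m / T) ^ (v + 1) := by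
    rw [mul_div_assoc, mul_pow, ← pow_mul, show (4 : ℝ) = 2 ^ 2 by norm_num, ← pow_mul,
      Nat.choose_two_right, Nat.add_sub_cancel, mul_comm (v + 1),
      Nat.mul_div_cancel' (Nat.even_mul_succ_self v).two_dvd]
  rw [h8, card_univ, Fintype.card_fin, nsmul_eq_mul] at h6
  rw [zero_add, show Nat.choose 1 2 = 0 from rfl, pow_zero, one_mul, pow_one] at h7
  have h9 : ∀ S G, ind (Acc c A (zf (G ∪ E S)) i ∧ ¬Acc c A (zf G) i) =
      ind (Acc c A (zf (G ∪ E S)) i) - ind (Acc c A (zf G) i) := fun S G => by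
    by_cases h : Acc c A (zf G) i
    · rw [ind_neg fun h' => h'.2 h, ind_pos h, ind_pos (h.mono (hz subset_union_left)), sub_self]
    · rw [ind_neg h, sub_zero, ind_congr (and_iff_left h)]
  simp only [h9, expect_sub_distrib, expect_const hne]
  rw [eps]
  linarith

end Pool.Agent.Lib.MP_21ae8a_lc.MC
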