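import Pool.Agent.Lib.MP_21ae8a_lc.MC.Step

/-! Persistent minimal pairs are rare; the greedy reduction; the sprinkling is nearly invisible. -/

namespace Pool.Agent.Lib.MP_21ae8a_lc.MC

open Finset Function
open scoped BigOperators

variable {n D T : ℕ}

/-- Sets of `w` vertices with a graph on them. -/
def Pairs (n w : ℕ) : Finset (Finset (Fin n) × Finset (Pos n)) :=
  univ.filter fun p => #p.1 = w ∧ p.2 ⊆ E p.1

theorem mem_Pairs {w : ℕ} {p : Finset (Fin n) × Finset (Pos n)} :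
    p ∈ Pairs n w ↔ #p.1 = w ∧ p.2 ⊆ E p.1 := by simp [Pairs]

/-- At most one vertex of `N` is isolated. -/
def Good (U : Finset (Fin n)) (J : Finset (Pos n)) (N : Finset (Fin n)) : Prop :=
  N = ∅ ∨ ∃ u₀ ∈ N, ∀ u ∈ N, J ⊆ E (U.erase u) → u = u₀

/-- The neighbours of `x`. -/
def nb (U : Finset (Fin n)) (J : Finset (Pos n)) (x : Fin n) : Finset (Fin n) :=
  (U.erase x).filter fun u => E {x, u} ⊆ J

theorem split_vertex {U : Finset (Fin n)} {J : Finset (Pos n)} (hJ : J ⊆ E U) (x : Fin n) :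
    J ∩ E (U.erase x) ∪ bst x id (nb U J x) = J := by
  refine Subset.antisymm (union_subset inter_subset_left
    (biUnion_subset.2 fun u hu => (mem_filter.1 hu).2)) fun e he => ?_
  have h1 := mem_E.1 (hJ he)
  have h2 := e.2
  have key : ∀ u ∈ U, u ≠ x → e ∈ E {x, u} → e ∈ J ∩ E (U.erase x) ∪ bst x id (nb U J x) :=
    fun u hu hux h => mem_union_right _ (mem_biUnion.2 ⟨u, mem_filter.2 ⟨mem_erase.2 ⟨hux, hu⟩,
      fun e' he' => card_le_one.1 (card_E_pair x u) e h e' he' ▸ he⟩, h⟩)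
  by_cases h3 : e.1.1 = x
  · exact key _ h1.2 (by omega) (mem_E_pair.2 (Or.inl ⟨h3, rfl⟩))
  by_cases h4 : e.1.2 = x
  · exact key _ h1.1 h3 (mem_E_pair.2 (Or.inr ⟨rfl, h4⟩))
  exact mem_union_left _ (mem_inter.2 ⟨he, mem_E.2 ⟨mem_erase.2 ⟨h3, h1.1⟩,
    mem_erase.2 ⟨h4, h1.2⟩⟩⟩)

theorem exists_good {U : Finset (Fin n)} (hU : U.Nonempty) (J : Finset (Pos n)) :
    ∃ x ∈ U, Good (U.erase x) (J ∩ E (U.erase x)) (nb U J x) := by
  by_cases h : ∃ x ∈ U, ∃ u ∈ nb U J x, J ∩ E (U.erase x) ⊆ E ((U.erase x).erase u)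
  · obtain ⟨x, _, u, hu, h⟩ := h
    have hu1 := mem_erase.1 (mem_filter.1 hu).1
    have h1 : ∀ u' ∈ nb U J u, u' = x := fun u' hu' => by
      by_contra hne
      have h2 := mem_erase.1 (mem_filter.1 hu').1
      obtain ⟨e, he⟩ := E_pair_nonempty h2.1.symm
      have h3 := mem_E.1 (h (mem_inter.2 ⟨(mem_filter.1 hu').2 he, E_mono (insert_subset
        (mem_erase.2 hu1) (singleton_subset_iff.2 (mem_erase.2 ⟨hne, h2.2⟩))) he⟩))
      rcases mem_E_pair.1 he with h4 | h4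
      · exact (mem_erase.1 h3.1).1 h4.1
      · exact (mem_erase.1 h3.2).1 h4.2
    refine ⟨u, hu1.2, (nb U J u).eq_empty_or_nonempty.imp_right fun ⟨u₀, h₀⟩ =>
      ⟨u₀, h₀, fun u' hu' _ => (h1 u' hu').trans (h1 u₀ h₀).symm⟩⟩
  · obtain ⟨x, hx⟩ := hU
    exact ⟨x, hx, (nb U J x).eq_empty_or_nonempty.imp_right fun ⟨u₀, h₀⟩ =>
      ⟨u₀, h₀, fun u hu h' => (h ⟨x, hx, u, hu, h'⟩).elim⟩⟩

/-- The expected number of persistent minimal pairs. -/
noncomputable def MM (D T : ℕ) (g : Finset (Pos n) → Prop) (a b w : ℕ) : ℝ :=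
  ∑ p ∈ Pairs n w, Pr D T g a b p.1 p.2

/-- The greedy reduction gets stuck at a pair with more than `lo` vertices. -/
def Bad (g : Finset (Pos n) → Prop) (G : Finset (Pos n)) (y : Yt n D T) (z : Zt n D T)
    (S : Finset (Fin n)) (v a lo : ℕ) : Prop :=
  ∃ k ∈ range (3 * v ^ 2), ∃ w ∈ Ioc lo (2 * v), ∃ p ∈ Pairs n w, p.1 ⊆ S ∧
    Mn g G y z (a + 2 * v * k) (a + 2 * v * (k + 1)) p.1 p.2

variable {g : Finset (Pos n) → Prop}

theorem greedy_aux (hg : Monotone g) {G : Finset (Pos n)} {y : Yt n D T} {z : Zt n D T}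
    {S : Finset (Fin n)} {v a lo : ℕ} (hB : ¬Bad g G y z S v a lo) (r : ℕ) :
    ∀ (k : ℕ) (U : Finset (Fin n)) (J : Finset (Pos n)), U ⊆ S → J ⊆ E U → #U ≤ 2 * v →
      #U + #J ≤ r → r + k < 3 * v ^ 2 → g (Gam G y z (a + 2 * v * k) U J) →
      ∃ U' ⊆ S, #U' ≤ lo ∧ g (Gam G y z (a + 6 * v ^ 3) U' (E U')) := by
  have h0 : ∀ (k : ℕ) (U : Finset (Fin n)) (J : Finset (Pos n)), U ⊆ S → J ⊆ E U → #U ≤ lo →
      k < 3 * v ^ 2 → g (Gam G y z (a + 2 * v * k) U J) →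
      ∃ U' ⊆ S, #U' ≤ lo ∧ g (Gam G y z (a + 6 * v ^ 3) U' (E U')) := fun k U J h1 h2 h3 h4 h5 =>
    ⟨U, h1, h3, hg (Gam_mono h2 Subset.rfl (by
      have := Nat.mul_le_mul_left (2 * v) h4.le
      nlinarith)) h5⟩
  induction r with
  | zero => exact fun k U J h1 h2 _ h4 h5 h6 => h0 k U J h1 h2 (by omega) (by omega) h6
  | succ r ih =>
    intro k U J h1 h2 h3 h4 h5 h6
    by_cases hl : #U ≤ lo
    · exact h0 k U J h1 h2 hl (by omega) h6
    have h7 : ¬Low g G y z (a + 2 * v * (k + 1)) U J := fun h => hB ⟨k, mem_range.2 (by omega),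
      #U, mem_Ioc.2 ⟨not_le.1 hl, h3⟩, (U, J), mem_Pairs.2 ⟨rfl, h2⟩, h1, h6, h⟩
    rw [Low, not_and_or] at h7
    push Not at h7
    rcases h7 with ⟨e, he, h⟩ | ⟨u, hu, h, h'⟩
    · have := card_erase_add_one he
      exact ih (k + 1) U _ h1 ((erase_subset _ _).trans h2) h3 (by omega) (by omega) h
    · have := card_erase_add_one hu
      exact ih (k + 1) _ J ((erase_subset _ _).trans h1) h (by omega) (by omega) (by omega) h'

theorem greedy (hg : Monotone g) {G : Finset (Pos n)} {y : Yt n D T} {z : Zt n D T}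
    {S U : Finset (Fin n)} {v a lo : ℕ} (hv : 2 ≤ v) (hB : ¬Bad g G y z S v a lo) (hU : U ⊆ S)
    (hc : #U ≤ 2 * v) (h : g (Gam G y z a U (E U))) :
    ∃ U' ⊆ S, #U' ≤ lo ∧ g (Gam G y z (a + 6 * v ^ 3) U' (E U')) := by
  refine greedy_aux hg hB (#U + #(E U)) 0 U (E U) hU Subset.rfl hc le_rfl ?_ h
  have h1 := (card_E_le_choose U).trans (Nat.choose_le_choose 2 hc)
  have h2 : (2 * v).choose 2 + v = 2 * v ^ 2 := by
    rw [Nat.choose_two_right, mul_assoc, Nat.mul_div_cancel_left _ two_pos]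
    obtain ⟨u, rfl⟩ : ∃ u, v = u + 1 := ⟨v - 1, by omega⟩
    rw [show 2 * (u + 1) - 1 = 2 * u + 1 by omega]
    ring
  nlinarith

variable [Nonempty (Fin n)]

open Classical in
theorem MM_step (hg : Monotone g) (hH : ∀ G, Hi (D * T) G → g G) {a b : ℕ} (hab : a < b)
    (haD : a < D) (w : ℕ) : T * MM D T g a b (w + 1) ≤ 4 ^ w * n * MM D T g (a + 1) b w := by
  let B := (Pairs n w).sigma fun p => (p.1.powerset.filter (Good p.1 p.2)) ×ˢ p.1ᶜ
  let f : (Σ _ : Finset (Fin n) × Finset (Pos n), Finset (Fin n) × Fin n) →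
      Finset (Fin n) × Finset (Pos n) := fun q =>
    (insert q.2.2 q.1.1, q.1.2 ∪ bst q.2.2 id q.2.1)
  have h1 : Pairs n (w + 1) ⊆ B.image f := fun p hp => by
    obtain ⟨h1, h2⟩ := mem_Pairs.1 hp
    obtain ⟨x, hx, h3⟩ := exists_good (U := p.1) (card_pos.1 (by omega)) p.2
    refine mem_image.2 ⟨⟨(p.1.erase x, p.2 ∩ E (p.1.erase x)), nb p.1 p.2 x, x⟩, mem_sigma.2
      ⟨mem_Pairs.2 ⟨by rw [card_erase_of_mem hx, h1]; rfl, inter_subset_right⟩, mem_product.2
        ⟨mem_filter.2 ⟨mem_powerset.2 (filter_subset _ _), h3⟩,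
          mem_compl.2 (notMem_erase _ _)⟩⟩, Prod.ext (insert_erase hx) (split_vertex h2 x)⟩
  have h2 : MM D T g a b (w + 1) ≤ ∑ q ∈ B, Pr D T g a b (f q).1 (f q).2 :=
    (sum_le_sum_of_subset_of_nonneg h1 fun _ _ _ => Pr_nonneg _ _ _ _ _).trans
      (sum_image_le_of_nonneg fun _ _ => Pr_nonneg _ _ _ _ _)
  refine (mul_le_mul_of_nonneg_left h2 (by positivity)).trans ?_
  rw [sum_sigma, mul_sum, MM, mul_sum]
  refine sum_le_sum fun p hp => ?_
  obtain ⟨h3, h4⟩ := mem_Pairs.1 hp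
  rw [sum_product, mul_sum]
  have h0 : 0 ≤ n * Pr D T g (a + 1) b p.1 p.2 :=
    mul_nonneg (by positivity) (Pr_nonneg _ _ _ _ _)
  have h5 : ∀ N ∈ p.1.powerset.filter (Good p.1 p.2),
      T * ∑ x ∈ p.1ᶜ, Pr D T g a b (insert x p.1) (p.2 ∪ bst x id N) ≤
        2 ^ w * (n * Pr D T g (a + 1) b p.1 p.2) := fun N hN => by
    obtain ⟨h5, h6⟩ := mem_filter.1 hN
    rcases h6 with rfl | ⟨u₀, h6, h7⟩
    · simp only [bst, biUnion_empty, union_empty]
      exact (step_iso hg hab haD h4).trans (le_mul_of_one_le_left h0 (one_le_pow₀ one_le_two))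
    · exact (step_edge hg hH hab haD h4 (mem_powerset.1 h5) h6 h7).trans
        (mul_le_mul_of_nonneg_right (pow_le_pow_right₀ one_le_two
          (h3 ▸ card_le_card (mem_powerset.1 h5))) h0)
  refine (sum_le_card_nsmul _ _ _ h5).trans ?_
  have h6 : (#(p.1.powerset.filter (Good p.1 p.2)) : ℝ) ≤ 2 ^ w := by
    exact_mod_cast (card_filter_le _ _).trans (by rw [card_powerset, h3])
  rw [nsmul_eq_mul, show (4 : ℝ) = 2 * 2 by norm_num, mul_pow, mul_assoc, mul_assoc]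
  exact mul_le_mul_of_nonneg_right h6 (mul_nonneg (by positivity) h0)

theorem MM_le (hg : Monotone g) (hH : ∀ G, Hi (D * T) G → g G) (hT : 0 < T) {b : ℕ} (w : ℕ) :
    ∀ a, a + w ≤ b → a + w ≤ D → MM D T g a b w ≤ 4 ^ w.choose 2 * ((n : ℝ) / T) ^ w := by
  induction w with
  | zero =>
    intro a _ _
    have h1 : Pairs n 0 ⊆ {(∅, ∅)} := fun p hp => by
      obtain ⟨h1, h2⟩ := mem_Pairs.1 hp
      rw [card_eq_zero] at h1
      rw [h1, E_empty, subset_empty] at h2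
      exact mem_singleton.2 (Prod.ext h1 h2)
    refine (sum_le_sum_of_subset_of_nonneg h1 fun _ _ _ => Pr_nonneg _ _ _ _ _).trans ?_
    rw [sum_singleton, Nat.choose_zero_succ, pow_zero, pow_zero, mul_one]
    exact expect_le_of_nonneg zero_le_one fun _ _ => expect_le_of_nonneg zero_le_one
      fun _ _ => expect_le_of_nonneg zero_le_one fun _ _ => ind_le_one _
  | succ w ih =>
    intro a h1 h2
    have hT' : (0 : ℝ) < T := by exact_mod_cast hT
    have h3 := (MM_step hg hH (show a < b by omega) (show a < D by omega) w).trans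
      (mul_le_mul_of_nonneg_left (ih (a + 1) (by omega) (by omega)) (by positivity))
    rw [← le_div_iff₀' hT'] at h3
    refine h3.trans (le_of_eq ?_)
    rw [Nat.choose_succ_succ', Nat.choose_one_right, pow_add, pow_succ]
    field_simp

omit [Nonempty (Fin n)] in
theorem term_le {x : ℝ} (hx : 0 ≤ x) {v lo : ℕ} (h : 16 ^ v * x ≤ 1) (j : ℕ) :
    lo + 1 + j ≤ 2 * v → 4 ^ (lo + 1 + j).choose 2 * x ^ (lo + 1 + j) ≤
      4 ^ (lo + 1).choose 2 * x ^ (lo + 1) := by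
  induction j with
  | zero => exact fun _ => le_rfl
  | succ j ih =>
    intro hj
    refine le_trans ?_ (ih (by omega))
    rw [← add_assoc, Nat.choose_succ_succ', Nat.choose_one_right, pow_add, pow_succ x]
    have h1 : (4 : ℝ) ^ (lo + 1 + j) * x ≤ 1 := by
      refine le_trans (mul_le_mul_of_nonneg_right ?_ hx) h
      rw [show (16 : ℝ) = 4 ^ 2 by norm_num, ← pow_mul]
      exact pow_le_pow_right₀ (by norm_num) (by omega)
    have h2 : (0 : ℝ) ≤ 4 ^ (lo + 1 + j).choose 2 * x ^ (lo + 1 + j) := by positivity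
    nlinarith [mul_le_mul_of_nonneg_right h1 h2]

theorem avg_Bad (hg : Monotone g) (hH : ∀ G, Hi (D * T) G → g G) (hT : 0 < T) {m v a lo : ℕ}
    (hm : m ≤ n) (hmT : 16 ^ v * m ≤ T) (ha : a + 6 * v ^ 3 ≤ D) :
    𝔼 S ∈ powersetCard m (univ : Finset (Fin n)), 𝔼 y : Yt n D T, 𝔼 G, 𝔼 z : Zt n D T,
      ind (Bad g G y z S v a lo) ≤
      6 * v ^ 3 * (4 ^ (lo + 1).choose 2 * ((m : ℝ) / T) ^ (lo + 1)) := by
  have hn := n_pos (n := n)
  have hT' : (0 : ℝ) < T := by exact_mod_cast hT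
  have h1 : ∀ S (y : Yt n D T) G (z : Zt n D T), ind (Bad g G y z S v a lo) ≤
      ∑ k ∈ range (3 * v ^ 2), ∑ w ∈ Ioc lo (2 * v), ∑ p ∈ Pairs n w, ind (p.1 ⊆ S) *
        ind (Mn g G y z (a + 2 * v * k) (a + 2 * v * (k + 1)) p.1 p.2) := fun S y G z =>
    (ind_exists_le _ _).trans (sum_le_sum fun k _ => (ind_exists_le _ _).trans
      (sum_le_sum fun w _ => (ind_exists_le _ _).trans (sum_le_sum fun p _ => (ind_and _ _).le)))
  refine (expect_le_expect fun S _ => expect_le_expect fun y _ => expect_le_expect fun G _ =>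
    expect_le_expect fun z _ => h1 S y G z).trans ?_
  simp only [expect_sum_comm, ← mul_expect, ← expect_mul]
  have h2 : ∀ k ∈ range (3 * v ^ 2), ∀ w ∈ Ioc lo (2 * v),
      ∑ p ∈ Pairs n w, (𝔼 S ∈ powersetCard m (univ : Finset (Fin n)), ind (p.1 ⊆ S)) *
        Pr D T g (a + 2 * v * k) (a + 2 * v * (k + 1)) p.1 p.2 ≤
      4 ^ (lo + 1).choose 2 * ((m : ℝ) / T) ^ (lo + 1) := fun k hk w hw => by
    obtain ⟨h2, h3⟩ := mem_Ioc.1 hw
    have h4 : 2 * v * (k + 1) ≤ 6 * v ^ 3 := by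
      have := Nat.mul_le_mul_left (2 * v) (Nat.succ_le_of_lt (mem_range.1 hk))
      nlinarith
    have h5 : ∀ p ∈ Pairs n w, 𝔼 S ∈ powersetCard m (univ : Finset (Fin n)), ind (p.1 ⊆ S) ≤
        ((m : ℝ) / n) ^ w := fun p hp => by
      have := prob_superset (T := (univ : Finset (Fin n))) (m := m) (by simpa using hm)
        (by simpa using Fin.pos') p.1
      rw [if_pos (subset_univ _), card_univ, Fintype.card_fin, (mem_Pairs.1 hp).1] at this
      refine le_trans (expect_le_expect fun S _ => ind_le ?_ fun h => (if_pos h).ge) this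
      split_ifs <;> norm_num
    refine (sum_le_sum fun p hp => mul_le_mul_of_nonneg_right (h5 p hp)
      (Pr_nonneg _ _ _ _ _)).trans ?_
    rw [← mul_sum]
    refine (mul_le_mul_of_nonneg_left (MM_le hg hH hT w (a + 2 * v * k)
      (by rw [mul_add]; omega) (by rw [mul_add] at h4; omega)) (by positivity)).trans ?_
    rw [mul_left_comm, ← mul_pow, show (m : ℝ) / n * (n / T) = m / T by field_simp]
    obtain ⟨j, rfl⟩ := Nat.exists_eq_add_of_le (Nat.succ_le_of_lt h2)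
    refine term_le (by positivity) ?_ j h3
    rw [← mul_div_assoc, div_le_one hT']
    exact_mod_cast hmT
  refine (sum_le_card_nsmul _ _ _ fun k hk => sum_le_card_nsmul _ _ _ (h2 k hk)).trans ?_
  rw [nsmul_eq_mul, nsmul_eq_mul, ← mul_assoc, card_range, Nat.card_Ioc]
  refine mul_le_mul_of_nonneg_right ?_ (by positivity)
  have : 3 * v ^ 2 * (2 * v - lo) ≤ 6 * v ^ 3 :=
    (Nat.mul_le_mul_left _ (Nat.sub_le _ _)).trans (le_of_eq (by ring))
  exact_mod_cast this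

theorem neutral (hR0 : 0 < D * T) (hR : (D * T) ^ 2 ≤ n) {f : Finset (Pos n) → ℝ}
    (hf0 : ∀ G, 0 ≤ f G) (hf1 : ∀ G, f G ≤ 1) (Λ : Finset (Sl D T)) :
    𝔼 z : Zt n D T, 𝔼 G, f (G ∪ Λ.biUnion (sta z)) ≤ 𝔼 G, f G + #Λ * (2 * (D * T : ℕ) / n) := by
  induction Λ using Finset.induction_on with
  | empty => simp
  | insert s Λ hs ih =>
    rw [← upd_avg s, card_insert_of_notMem hs, Nat.cast_succ, add_one_mul, ← add_assoc]
    refine le_trans ?_ (add_le_add_left ih _)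
    rw [← Fintype.expect_const (ι := Zt n D T) (2 * ((D * T : ℕ) : ℝ) / n), ← expect_add_distrib]
    refine expect_le_expect fun z _ => ?_
    refine le_trans (le_of_eq ?_) (star_neutral hR0 hR (card_lv (s.1 + 1))
      (f := fun G => f (G ∪ Λ.biUnion (sta z))) (fun _ => hf0 _) fun _ => hf1 _)
    refine expect_congr rfl fun σ _ => expect_congr rfl fun G _ => ?_
    rw [biUnion_insert, sta, update_self, union_assoc, biUnion_congr rfl fun s' hs' => by
      rw [sta, update_of_ne (ne_of_mem_of_not_mem hs' hs), ← sta]]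

end Pool.Agent.Lib.MP_21ae8a_lc.MC
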