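import Pool.Agent.Lib.MP_21ae8a_lc.Defs

/-! Boolean circuits with few negations and bounded depth. -/

namespace Pool.Agent.Lib.MP_21ae8a_lc

open Finset

/-- A gate of a circuit with inputs `X` and `s` gates: an input, a conjunction or a disjunction of
two gates, or a negation. -/
inductive Gate (X : Type) (s : ℕ) : Type
  | inp (x : X)
  | and (j k : Fin s)
  | or (j k : Fin s)
  | not (j : Fin s)

/-- The value of a gate, given the input bits and the values of all gates. -/
def Gate.eval {X : Type} {s : ℕ} (z : X → Bool) (val : Fin s → Bool) : Gate X s → Bool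
  | .inp x => z x
  | .and j k => val j && val k
  | .or j k => val j || val k
  | .not j => !val j

/-- Gate number `i` reads earlier gates only, and the label `dp` increases at conjunctions and
disjunctions. -/
def Gate.Fits {X : Type} {s : ℕ} (dp : Fin s → ℕ) (i : Fin s) : Gate X s → Prop
  | .inp _ => True
  | .and j k => j < i ∧ k < i ∧ dp j < dp i ∧ dp k < dp i
  | .or j k => j < i ∧ k < i ∧ dp j < dp i ∧ dp k < dp i
  | .not j => j < i

/-- The gate is a negation. -/
def Gate.isNot {X : Type} {s : ℕ} : Gate X s → Bool
  | .not _ => true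
  | _ => false

/-- The test is an arbitrary function of the values of `k` gates of a circuit with `s` gates, at
most `b` negations and labels at most `d`, run on the entries of the two matrices, where the
entries in a fixed symmetric set `σ` are negated for free. -/
def IsCircuitTest {n : ℕ} (s d b k : ℕ) (τ : Test n) : Prop :=
  ∃ (σ : Bool × Fin n × Fin n → Bool) (c : Fin s → Gate (Bool × Fin n × Fin n) s)
    (dp : Fin s → ℕ) (val : (Bool × Fin n × Fin n → Bool) → Fin s → Bool) (o : Fin k → Fin s)
    (ψ : (Fin k → Bool) → Bool),
    (∀ a i j, σ (a, i, j) = σ (a, j, i)) ∧ (∀ i, (c i).Fits dp i ∧ dp i ≤ d) ∧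
    #{i | (c i).isNot = true} ≤ b ∧ (∀ z i, val z i = (c i).eval z (val z)) ∧
    ∀ M N, τ M N = ψ fun t => val (fun p => xor (bits M N p) (σ p)) (o t)

end Pool.Agent.Lib.MP_21ae8a_lc
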