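import Pool.Agent.Lib.MP_21ae8a_lc.MC.Circ
import Pool.Agent.Lib.MP_21ae8a_lc.MC.Defs
import Pool.Agent.Lib.MP_21ae8a_lc.Layers

/-! Fixing the negations, duality, and literals of both signs. -/

namespace Pool.Agent.Lib.MP_21ae8a_lc.MC

open Finset Function
open scoped BigOperators

variable {X : Type} {s : ℕ}

/-- The same gate. -/
def prim : Gate X s → Gt X s
  | .inp x => .inp x
  | .and j k => .and j k
  | .or j k => .or {j, k}
  | .not j => .not j

/-- The dual gate. -/
def dual : Gate X s → Gt X s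
  | .inp x => .inp x
  | .and j k => .or {j, k}
  | .or j k => .and j k
  | .not j => .not j

variable {c : Fin s → Gate X s} {A : Finset (Fin s)} {dp : Fin s → ℕ}

theorem prim_fits {i : Fin s} {γ : Gate X s} (h : γ.Fits dp i) : (prim γ).Fits dp i := by
  cases γ with
  | and j k => exact h.2.2
  | or j k => simpa [prim, Gt.Fits] using And.intro h.2.2.1.le h.2.2.2.le
  | _ => trivial

theorem dual_fits {i : Fin s} {γ : Gate X s} (h : γ.Fits dp i) : (dual γ).Fits dp i := by
  cases γ with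
  | or j k => exact h.2.2
  | and j k => simpa [dual, Gt.Fits] using And.intro h.2.2.1.le h.2.2.2.le
  | _ => trivial

section

variable {γ : Fin s → Gt X s} {z : X → Prop} {i j k : Fin s}

theorem acc_inp {x : X} (h : γ i = .inp x) : Acc γ A z i ↔ z x :=
  ⟨fun h3 => by simpa [h] using h3.cases, .inp i x h⟩

theorem acc_and (h : γ i = .and j k) : Acc γ A z i ↔ Acc γ A z j ∧ Acc γ A z k :=
  ⟨fun h3 => by simpa [h, and_assoc] using h3.cases, fun h3 => .and i j k h h3.1 h3.2⟩

theorem acc_or (h : γ i = .or {j, k}) : Acc γ A z i ↔ Acc γ A z j ∨ Acc γ A z k :=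
  ⟨fun h3 => by simpa [h] using h3.cases, fun h3 => h3.elim (.or i _ j h (by simp))
    (.or i _ k h (by simp))⟩

theorem acc_not (h : γ i = .not j) : Acc γ A z i ↔ i ∈ A :=
  ⟨fun h3 => by simpa [h] using h3.cases, .not i j h⟩

end

theorem val_iff (hc : ∀ i, (c i).Fits dp i) {z : X → Bool} {val : Fin s → Bool}
    (hv : ∀ i, val i = (c i).eval z val)
    (hA : ∀ i j, c i = .not j →
      (val j = true ↔ Acc (fun i => prim (c i)) A (fun x => z x = true) j) →
      (i ∈ A ↔ val i = true)) (i : Fin s) :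
    val i = true ↔ Acc (fun i => prim (c i)) A (fun x => z x = true) i := by
  induction i using WellFoundedLT.induction with
  | ind i ih =>
    have h1 := hc i
    have h2 := hv i
    rcases h : c i with x | ⟨j, k⟩ | ⟨j, k⟩ | j <;> rw [h] at h1 h2
    · rw [h2, Gate.eval, acc_inp (γ := fun i => prim (c i)) (i := i) (congrArg prim h)]
    · rw [h2, Gate.eval, Bool.and_eq_true, ih j h1.1, ih k h1.2.1,
        acc_and (γ := fun i => prim (c i)) (i := i) (congrArg prim h)]
    · rw [h2, Gate.eval, Bool.or_eq_true, ih j h1.1, ih k h1.2.1,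
        acc_or (γ := fun i => prim (c i)) (i := i) (congrArg prim h)]
    · rw [← hA i j h (ih j h1), acc_not (γ := fun i => prim (c i)) (i := i) (congrArg prim h)]

theorem dual_iff (hc : ∀ i, (c i).Fits dp i) (z : X → Prop) (i : Fin s) :
    Acc (fun i => dual (c i)) Aᶜ (fun x => ¬z x) i ↔ ¬Acc (fun i => prim (c i)) A z i := by
  induction i using WellFoundedLT.induction with
  | ind i ih =>
    have h1 := hc i
    rcases h : c i with x | ⟨j, k⟩ | ⟨j, k⟩ | j <;> rw [h] at h1
    · rw [acc_inp (γ := fun i => dual (c i)) (i := i) (congrArg dual h),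
        acc_inp (γ := fun i => prim (c i)) (i := i) (congrArg prim h)]
    · rw [acc_or (γ := fun i => dual (c i)) (i := i) (congrArg dual h),
        acc_and (γ := fun i => prim (c i)) (i := i) (congrArg prim h),
        ih j h1.1, ih k h1.2.1, not_and_or]
    · rw [acc_and (γ := fun i => dual (c i)) (i := i) (congrArg dual h),
        acc_or (γ := fun i => prim (c i)) (i := i) (congrArg prim h),
        ih j h1.1, ih k h1.2.1, not_or]
    · rw [acc_not (γ := fun i => dual (c i)) (i := i) (congrArg dual h),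
        acc_not (γ := fun i => prim (c i)) (i := i) (congrArg prim h), mem_compl]

variable {n T : ℕ}

/-- The bit vector of a graph. -/
def toF (G : Finset (Pos n)) : Pos n → Bool := fun e => decide (e ∈ G)

theorem toF_bijective : Bijective (toF (n := n)) :=
  ⟨fun _ _ h => Finset.ext fun e => by simpa [toF] using congrFun h e,
    fun x => ⟨univ.filter fun e => x e = true, funext fun e => by simp [toF]⟩⟩

theorem plant_toF (S : Finset (Fin n)) (G : Finset (Pos n)) :
    plant S (toF G) = toF (G ∪ E S) := by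
  funext e
  by_cases h : e ∈ E S <;> simp [plant, mg, toF, h]

theorem avg_split (P : Finset (Pos n)) (F : Finset (Pos n) → ℝ) :
    𝔼 G, F G = 𝔼 G₂, 𝔼 G₁, F (G₁ ∩ P ∪ G₂ \ P) := by
  have h : Involutive fun p : Finset (Pos n) × Finset (Pos n) =>
      (p.2 ∩ P ∪ p.1 \ P, p.1 ∩ P ∪ p.2 \ P) := fun p => by
    refine Prod.ext (Finset.ext fun e => ?_) (Finset.ext fun e => ?_) <;>
      by_cases he : e ∈ P <;> simp [he]
  have := Fintype.expect_bijective _ h.bijective (fun p => F (p.2 ∩ P ∪ p.1 \ P)) (fun p => F p.1)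
    fun _ => rfl
  rw [← univ_product_univ, expect_product, expect_product] at this
  simpa only [Fintype.expect_const] using this.symm

/-- Every input is constant or an edge of `P` read in the graph. -/
def Reads (P : Finset (Pos n)) (z : Finset (Pos n) → X → Prop) : Prop :=
  ∀ x, (∀ G G', z G x → z G' x) ∨ ∃ e ∈ P, ∀ G, z G x ↔ e ∈ G

theorem Reads.mono {P : Finset (Pos n)} {z : Finset (Pos n) → X → Prop} (hz : Reads P z) :
    Monotone z := fun G G' h x hx => by
  rcases hz x with h1 | ⟨e, _, h1⟩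
  · exact h1 G G' hx
  · exact (h1 G').2 (h ((h1 G).1 hx))

theorem Reads.cert {P : Finset (Pos n)} {z : Finset (Pos n) → X → Prop} (hz : Reads P z)
    (G : Finset (Pos n)) (S : Finset (Fin n)) (x : X) (hx : z (G ∪ E S) x) :
    ∃ U ⊆ S, #U ≤ 2 ∧ z (G ∪ E U) x := by
  rcases hz x with h1 | ⟨e, _, h1⟩
  · exact ⟨∅, empty_subset _, Nat.zero_le _, h1 _ _ hx⟩
  · rcases mem_union.1 ((h1 _).1 hx) with h2 | h2
    · exact ⟨∅, empty_subset _, Nat.zero_le _, (h1 _).2 (mem_union_left _ h2)⟩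
    · exact ⟨{e.1.1, e.1.2}, insert_subset (mem_E.1 h2).1 (singleton_subset_iff.2 (mem_E.1 h2).2),
        card_le_two, (h1 _).2 (mem_union_right _ (mem_E_pair.2 (Or.inl ⟨rfl, rfl⟩)))⟩

/-- One half of the error of a circuit with literals of both signs. -/
theorem half_bound [Nonempty (Fin n)] {γ : Fin s → Gt X s} {d m v q : ℕ}
    (hc : ∀ i, (γ i).Fits dp i ∧ dp i ≤ d) {P : Finset (Pos n)}
    {z : Finset (Pos n) → Finset (Pos n) → X → Prop} (h1 : ∀ G₂, Reads P fun G₁ => z G₁ G₂)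
    (h2 : ∀ G G₁ G₂, z G (G₁ ∩ P ∪ G₂ \ P) = z G G₂)
    (hv : 2 ≤ v) (hq : 1 ≤ q) (hT0 : 0 < T) (hm : m ≤ n)
    (hn : q * (6 * v ^ 3 * (d + 1) * T) ^ 2 ≤ n) (hT : 16 ^ v * m ≤ T) (i : Fin s) :
    𝔼 S ∈ powersetCard m (univ : Finset (Fin n)), 𝔼 G,
      ind (Acc γ A (z (G ∪ E S) G) i ∧ ¬Acc γ A (z G G) i) ≤ eps n m v T q s := by
  have h3 : ∀ G₁ G₂ G₃ H, z (G₁ ∩ P ∪ G₂ \ P ∪ H) G₃ = z (G₁ ∪ H) G₃ := fun G₁ G₂ G₃ H => by
    funext x
    rcases h1 G₃ x with h | ⟨e, he, h⟩
    · exact propext ⟨h _ _, h _ _⟩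
    · exact propext ((h _).trans (Iff.trans (by simp [he]) (h _).symm))
  have h4 : ∀ G₁ G₂ G₃, z (G₁ ∩ P ∪ G₂ \ P) G₃ = z G₁ G₃ := fun G₁ G₂ G₃ => by
    simpa using h3 G₁ G₂ G₃ ∅
  have h5 : ∀ S, 𝔼 G, ind (Acc γ A (z (G ∪ E S) G) i ∧ ¬Acc γ A (z G G) i) =
      𝔼 G₂, 𝔼 G₁, ind (Acc γ A (z (G₁ ∪ E S) G₂) i ∧ ¬Acc γ A (z G₁ G₂) i) := fun S => by
    rw [avg_split P]
    simp only [h2, h3, h4]
  simp only [h5]
  rw [expect_comm]
  exact expect_le univ_nonempty fun G₂ _ => mono_bound (zf := fun G₁ => z G₁ G₂) hc (h1 G₂).mono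
    (h1 G₂).cert hv hq hT0 hm hn hT i

theorem dis_le [Nonempty (Fin n)] {d m v q b k : ℕ} (hc : ∀ i, (c i).Fits dp i ∧ dp i ≤ d)
    (hb : #{i | (c i).isNot = true} ≤ b) {val : (X → Bool) → Fin s → Bool}
    (hval : ∀ z i, val z i = (c i).eval z (val z)) (o : Fin k → Fin s)
    (ψ : (Fin k → Bool) → Bool) {β : (Pos n → Bool) → X → Bool} {P : Finset (Pos n)}
    (hβ : ∀ x, (∀ G G', β (toF G) x = β (toF G') x) ∨
      (∃ e ∈ P, ∀ G, β (toF G) x = true ↔ e ∈ G) ∨ ∃ e ∈ Pᶜ, ∀ G, β (toF G) x = true ↔ e ∉ G)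
    (hv : 2 ≤ v) (hq : 1 ≤ q) (hT0 : 0 < T) (hm : m ≤ n)
    (hn : q * (6 * v ^ 3 * (d + 1) * T) ^ 2 ≤ n) (hT : 16 ^ v * m ≤ T) :
    dis m univ (fun x => ψ fun t => val (β x) (o t)) ≤
      (b + k) * 2 ^ (b + 1) * eps n m v T q s := by
  let z : Finset (Pos n) → Finset (Pos n) → X → Prop := fun G₁ G₂ x =>
    β (toF (G₁ ∩ P ∪ G₂ \ P)) x = true
  have hd : ∀ G, z G G = fun x => β (toF G) x = true := fun G => by
    simp only [z, union_comm (G ∩ P), sdiff_union_inter]
  have r1 : ∀ G₂, Reads P fun G₁ => z G₁ G₂ := fun G₂ x => by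
    rcases hβ x with h | ⟨e, he, h⟩ | ⟨e, he, h⟩
    · exact .inl fun G G' hx => (h _ _).trans hx
    · exact .inr ⟨e, he, fun G => (h _).trans (by simp [he])⟩
    · exact .inl fun G G' hx => (h _).2 (by simpa [mem_compl.1 he] using (h _).1 hx)
  have r2 : ∀ G₁, Reads Pᶜ fun G₂ x => ¬z G₁ G₂ x := fun G₁ x => by
    rcases hβ x with h | ⟨e, he, h⟩ | ⟨e, he, h⟩
    · exact .inl fun G G' hx hx' => hx ((h _ _).trans hx')
    · exact .inl fun G G' hx hx' => hx ((h _).2 (by simpa [he] using (h _).1 hx'))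
    · exact .inr ⟨e, he, fun G => (not_congr (h _)).trans (by simp [mem_compl.1 he])⟩
  have s1 : ∀ G G₁ G₂, z G (G₁ ∩ P ∪ G₂ \ P) = z G G₂ := fun G G₁ G₂ => by
    have : (G₁ ∩ P ∪ G₂ \ P) \ P = G₂ \ P := Finset.ext fun e => by
      by_cases he : e ∈ P <;> simp [he]
    simp only [z, this]
  have s2 : ∀ G G₁ G₂, (fun x => ¬z (G₁ ∩ Pᶜ ∪ G₂ \ Pᶜ) G x) = fun x => ¬z G₂ G x :=
    fun G G₁ G₂ => by
      have : (G₁ ∩ Pᶜ ∪ G₂ \ Pᶜ) ∩ P = G₂ ∩ P := Finset.ext fun e => by
        by_cases he : e ∈ P <;> simp [he]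
      simp only [z, this]
  have m1 : ∀ G S G₂ x, z G G₂ x → z (G ∪ E S) G₂ x := fun G S G₂ =>
    (r1 G₂).mono subset_union_left
  have m2 : ∀ G S G₁ x, z G₁ (G ∪ E S) x → z G₁ G x := fun G S G₁ x hx =>
    by_contra fun h => (r2 G₁).mono subset_union_left x h hx
  let B : Finset (Fin s) := {i | (c i).isNot = true}
  let arg : Fin s → Fin s := fun i => match c i with
    | .not j => j
    | _ => i
  let W : Finset (Fin s) := B.image arg ∪ univ.image o
  let cp : Fin s → Gt X s := fun i => prim (c i)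
  let cd : Fin s → Gt X s := fun i => dual (c i)
  have hW : #W ≤ b + k := (card_union_le _ _).trans
    (Nat.add_le_add (card_image_le.trans hb) (card_image_le.trans (by simp)))
  have h1 : ∀ S G, (if (ψ fun t => val (β (toF (G ∪ E S))) (o t)) =
      ψ fun t => val (β (toF G)) (o t) then (0 : ℝ) else 1) ≤
      ∑ A ∈ B.powerset, ∑ j ∈ W, (ind (Acc cp A (z (G ∪ E S) G) j ∧ ¬Acc cp A (z G G) j) +
        ind (Acc cd Aᶜ (fun x => ¬z G (G ∪ E S) x) j ∧ ¬Acc cd Aᶜ (fun x => ¬z G G x) j)) :=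
    fun S G => by
      split_ifs with h
      · exact sum_nonneg fun _ _ => sum_nonneg fun _ _ => add_nonneg (ind_nonneg _) (ind_nonneg _)
      refine le_trans (ind_pos ?_).ge ((ind_exists_le _ _).trans
        (sum_le_sum fun A _ => (ind_exists_le W fun j =>
          (Acc cp A (z (G ∪ E S) G) j ∧ ¬Acc cp A (z G G) j) ∨
          (Acc cd Aᶜ (fun x => ¬z G (G ∪ E S) x) j ∧ ¬Acc cd Aᶜ (fun x => ¬z G G x) j)).trans
            (sum_le_sum fun j _ => ind_le (add_nonneg (ind_nonneg _) (ind_nonneg _)) fun h' =>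
              h'.elim (fun h' => (ind_pos h').ge.trans (le_add_of_nonneg_right (ind_nonneg _)))
                fun h' => (ind_pos h').ge.trans (le_add_of_nonneg_left (ind_nonneg _)))))
      by_contra h'
      have hB : ∀ i j, c i = .not j → i ∈ B := fun i j h =>
        mem_filter.2 ⟨mem_univ _, by rw [h]; rfl⟩
      have h3 := val_iff (A := B.filter fun i => val (β (toF G)) i = true) (fun i => (hc i).1)
        (hval (β (toF G))) fun i j h _ => by rw [mem_filter, and_iff_right (hB i j h)]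
      have h4 : ∀ j ∈ W, Acc cp (B.filter fun i => val (β (toF G)) i = true)
          (fun x => β (toF (G ∪ E S)) x = true) j ↔ val (β (toF G)) j = true := fun j hj => by
        have h5 := fun h => h' ⟨_, mem_powerset.2
          (filter_subset (fun i => val (β (toF G)) i = true) B), j, hj, h⟩
        rw [dual_iff fun i => (hc i).1, dual_iff fun i => (hc i).1] at h5
        rw [h3 j, ← hd, ← hd]
        exact ⟨fun h6 => by_contra fun h7 => h5 (.inl ⟨h6.mono (m2 G S _), h7⟩),
          fun h6 => by_contra fun h7 => h5 (.inr ⟨fun h8 => h7 (h8.mono (m1 G S _)),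
            not_not.2 h6⟩)⟩
      have h5 := val_iff (A := B.filter fun i => val (β (toF G)) i = true) (fun i => (hc i).1)
        (hval (β (toF (G ∪ E S)))) fun i j h h5 => by
          have h6 := h5.trans (h4 j (mem_union_left _
            (mem_image.2 ⟨i, hB i j h, by simp only [arg, h]⟩)))
          rw [mem_filter, and_iff_right (hB i j h), hval _ i, hval _ i, h, Gate.eval, Gate.eval,
            Bool.eq_iff_iff.2 h6]
      exact h (congrArg ψ (funext fun t => Bool.eq_iff_iff.2 ((h5 _).trans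
        (h4 _ (mem_union_right _ (mem_image_of_mem _ (mem_univ t)))))))
  have h2 : dis m univ (fun x => ψ fun t => val (β x) (o t)) =
      𝔼 S ∈ powersetCard m (univ : Finset (Fin n)), 𝔼 G,
        if (ψ fun t => val (β (toF (G ∪ E S))) (o t)) = ψ fun t => val (β (toF G)) (o t)
          then (0 : ℝ) else 1 :=
    expect_congr rfl fun S _ =>
      (Fintype.expect_bijective toF toF_bijective _ _ fun G => by rw [plant_toF]).symm
  rw [h2]
  refine (expect_le_expect fun S _ => expect_le_expect fun G _ => h1 S G).trans ?_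
  simp only [expect_sum_comm, expect_add_distrib]
  refine (sum_le_card_nsmul _ _ _ fun A _ => sum_le_card_nsmul _ _ _ fun j _ => add_le_add
    (half_bound (fun i => ⟨prim_fits (hc i).1, (hc i).2⟩) r1 s1 hv hq hT0 hm hn hT j)
    (half_bound (z := fun G₂ G₁ x => ¬z G₁ G₂ x) (fun i => ⟨dual_fits (hc i).1, (hc i).2⟩) r2 s2
      hv hq hT0 hm hn hT j)).trans ?_
  rw [nsmul_eq_mul, nsmul_eq_mul, ← mul_assoc, card_powerset, mul_comm _ (#W : ℝ), ← two_mul,
    ← mul_assoc, mul_assoc (#W : ℝ)]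
  refine mul_le_mul_of_nonneg_right (mul_le_mul (by exact_mod_cast hW) ?_ (by positivity)
    (by positivity)) (by rw [eps]; positivity)
  rw [pow_succ]
  exact mul_le_mul_of_nonneg_right (by exact_mod_cast Nat.pow_le_pow_right two_pos hb) zero_le_two

theorem entry_cases (σ : Fin n → Fin n → Bool) (hσ : ∀ i j, σ i j = σ j i) (i j : Fin n) :
    (∀ G G', xor (decide (modelA (toF G) i j = 1)) (σ i j) =
      xor (decide (modelA (toF G') i j = 1)) (σ i j)) ∨
    (∃ e ∈ ({e | σ e.1.1 e.1.2 = false} : Finset (Pos n)), ∀ G,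
      xor (decide (modelA (toF G) i j = 1)) (σ i j) = true ↔ e ∈ G) ∨
    ∃ e ∈ ({e | σ e.1.1 e.1.2 = false} : Finset (Pos n))ᶜ, ∀ G,
      xor (decide (modelA (toF G) i j = 1)) (σ i j) = true ↔ e ∉ G := by
  have h0 : ∀ b, sg b = 1 ↔ b = true := fun b => by cases b <;> norm_num [sg]
  rcases lt_trichotomy i j with h | h | h
  · cases hs : σ i j
    · exact .inr (.inl ⟨⟨(i, j), h⟩, by simp [hs], fun G => by simp [modelA, h, h0, toF]⟩)
    · exact .inr (.inr ⟨⟨(i, j), h⟩, by simp [hs], fun G => by simp [modelA, h, h0, toF]⟩)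
  · exact .inl fun G G' => by simp [modelA, h]
  · have hs' := hσ j i
    cases hs : σ i j
    · exact .inr (.inl ⟨⟨(j, i), h⟩, by simp [hs', hs],
        fun G => by simp [modelA, h, h0, toF, not_lt.2 h.le]⟩)
    · exact .inr (.inr ⟨⟨(j, i), h⟩, by simp [hs', hs],
        fun G => by simp [modelA, h, h0, toF, not_lt.2 h.le]⟩)

end Pool.Agent.Lib.MP_21ae8a_lc.MC
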