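import Pool.Agent.Lib.MP_21ae8a_lc.MC.Base

/-! Random stars: transport into the graph, high degrees are rare, one star is nearly invisible. -/

namespace Pool.Agent.Lib.MP_21ae8a_lc.MC

open Finset Function
open scoped BigOperators

variable {n : ℕ} {L : Type}

theorem mem_E_pair {x y : Fin n} {e : Pos n} :
    e ∈ E {x, y} ↔ (e.1.1 = x ∧ e.1.2 = y) ∨ (e.1.1 = y ∧ e.1.2 = x) := by
  have := e.2
  simp only [mem_E, mem_insert, mem_singleton]
  omega

theorem card_E_pair (x y : Fin n) : #(E {x, y}) ≤ 1 :=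
  (card_E_le_choose _).trans (Nat.choose_le_choose 2 card_le_two)

theorem E_pair_self (x : Fin n) : E {x, x} = ∅ :=
  eq_empty_of_forall_notMem fun e he => by
    have := e.2
    rw [mem_E_pair] at he
    omega

theorem E_pair_nonempty {x y : Fin n} (h : x ≠ y) : (E {x, y}).Nonempty := by
  rcases lt_or_gt_of_ne h with h | h
  · exact ⟨⟨(x, y), h⟩, mem_E_pair.2 (Or.inl ⟨rfl, rfl⟩)⟩
  · exact ⟨⟨(y, x), h⟩, mem_E_pair.2 (Or.inr ⟨rfl, rfl⟩)⟩

theorem E_pair_inj {x y y' : Fin n} {e : Pos n} (h : e ∈ E {x, y}) (h' : e ∈ E {x, y'}) :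
    y = y' := by
  have := e.2
  rw [mem_E_pair] at h h'
  omega

/-- The edges from `x` to the leaves with slot in `Λ`. -/
def bst (x : Fin n) (η : L → Fin n) (Λ : Finset L) : Finset (Pos n) :=
  Λ.biUnion fun s => E {x, η s}

theorem bst_mono (x : Fin n) (η : L → Fin n) {Λ Λ' : Finset L} (h : Λ ⊆ Λ') :
    bst x η Λ ⊆ bst x η Λ' := biUnion_subset_biUnion_of_subset_left _ h

/-- The density of one random edge at `x`. -/
noncomputable def rho (x : Fin n) (G : Finset (Pos n)) : ℝ := 𝔼 y : Fin n, dens (E {x, y}) G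

theorem rho_nonneg (x : Fin n) (G : Finset (Pos n)) : 0 ≤ rho x G :=
  expect_nonneg fun _ _ => dens_nonneg _ _

/-- Some vertex has a high degree. -/
def Hi (R : ℕ) (G : Finset (Pos n)) : Prop := ∃ x, 2 < rho x G ^ R

theorem Hi_mono (R : ℕ) : Monotone (Hi (n := n) R) := fun G _ h ⟨x, hx⟩ =>
  ⟨x, hx.trans_le (pow_le_pow_left₀ (rho_nonneg x G)
    (expect_le_expect fun _ _ => dens_mono _ h) R)⟩

theorem mgf (x : Fin n) (t : ℝ) (Y : Finset (Fin n)) :
    𝔼 G, ∏ y ∈ Y, Real.exp (t * (dens (E {x, y}) G - 1)) ≤ Real.exp (t ^ 2 / 2) ^ #Y := by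
  induction Y using Finset.induction_on with
  | empty => simp
  | insert y Y hy ih =>
    rw [card_insert_of_notMem hy, pow_succ']
    simp only [prod_insert hy]
    have h0 : 0 ≤ 𝔼 G, ∏ y ∈ Y, Real.exp (t * (dens (E {x, y}) G - 1)) :=
      expect_nonneg fun _ _ => prod_nonneg fun _ _ => (Real.exp_pos _).le
    by_cases hxy : x = y
    · subst hxy
      have : ∀ G : Finset (Pos n), Real.exp (t * (dens (E {x, x}) G - 1)) = 1 := fun G => by
        simp only [E_pair_self, dens, ind_pos (empty_subset G)]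
        simp
      simp only [this, one_mul]
      exact ih.trans (le_mul_of_one_le_left (by positivity) (Real.one_le_exp (by positivity)))
    have hc : #(E {x, y}) = 1 :=
      le_antisymm (card_E_pair x y) (card_pos.2 (E_pair_nonempty hxy))
    have h1 : ∀ G, Real.exp (t * (dens (E {x, y}) G - 1)) =
        Real.exp (-t) + Real.sinh t * dens (E {x, y}) G := fun G => by
      rw [dens, hc, Real.sinh_eq]
      by_cases h : E {x, y} ⊆ G
      · rw [ind_pos h]
        norm_num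
      · rw [ind_neg h]
        simp
    have h2 : ∀ G, ∏ y' ∈ Y, Real.exp (t * (dens (E {x, y'}) (G ∪ E {x, y}) - 1)) =
        ∏ y' ∈ Y, Real.exp (t * (dens (E {x, y'}) G - 1)) := fun G =>
      prod_congr rfl fun y' hy' => by
        rw [dens, dens, ind_congr (show E {x, y'} ⊆ G ∪ E {x, y} ↔ E {x, y'} ⊆ G from
          ⟨fun h e he => (mem_union.1 (h he)).resolve_right fun he' =>
            hy (E_pair_inj he he' ▸ hy'), fun h => h.trans subset_union_left⟩)]
    have h3 := avg_union (E {x, y}) fun G => ∏ y' ∈ Y, Real.exp (t * (dens (E {x, y'}) G - 1))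
    simp only [h2] at h3
    simp only [h1, add_mul, mul_assoc, expect_add_distrib, ← mul_expect, ← h3]
    rw [← add_mul]
    have h4 : Real.exp (-t) + Real.sinh t ≤ Real.exp (t ^ 2 / 2) := by
      have := Real.cosh_le_exp_half_sq t
      rw [Real.cosh_eq] at this
      rw [Real.sinh_eq]
      linarith
    exact mul_le_mul h4 ih h0 (by positivity)

variable [Nonempty (Fin n)]

theorem n_pos : (0 : ℝ) < n := by exact_mod_cast Fin.pos'

theorem avg_rho_pow (x : Fin n) (k : ℕ) :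
    𝔼 G, rho x G ^ k ≤ Real.exp ((k : ℝ) ^ 2 / (2 * n)) := by
  have hn := n_pos (n := n)
  have h1 := mgf x (k / n) univ
  rw [card_univ, Fintype.card_fin, ← Real.exp_nat_mul,
    show n * (((k : ℝ) / n) ^ 2 / 2) = (k : ℝ) ^ 2 / (2 * n) by field_simp] at h1
  refine le_trans (expect_le_expect fun G _ => ?_) h1
  have h2 : rho x G = (∑ y, (dens (E {x, y}) G - 1)) / n + 1 := by
    rw [rho, Fintype.expect_eq_sum_div_card, sum_sub_distrib]
    simp only [Fintype.card_fin, sum_const, card_univ, nsmul_eq_mul, mul_one]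
    field_simp
    ring
  rw [← Real.exp_sum, ← mul_sum, show (k : ℝ) / n * ∑ y, (dens (E {x, y}) G - 1) =
    k * ((∑ y, (dens (E {x, y}) G - 1)) / n) by ring, Real.exp_nat_mul]
  exact pow_le_pow_left₀ (rho_nonneg x G) (h2 ▸ Real.add_one_le_exp _) k

theorem avg_Hi {R q : ℕ} (h : q * R ^ 2 ≤ n) :
    𝔼 G : Finset (Pos n), ind (Hi R G) ≤ n * (5 / 6) ^ q := by
  have hn := n_pos (n := n)
  have h1 : ∀ G : Finset (Pos n), ind (Hi R G) ≤ ∑ x, rho x G ^ (R * q) / 2 ^ q := fun G => by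
    have h0 : ∀ x, 0 ≤ rho x G ^ (R * q) / 2 ^ q := fun x =>
      div_nonneg (pow_nonneg (rho_nonneg x G) _) (by positivity)
    refine ind_le (sum_nonneg fun x _ => h0 x) fun ⟨x, hx⟩ =>
      le_trans ?_ (single_le_sum (fun x _ => h0 x) (mem_univ x))
    rw [one_le_div (by positivity), pow_mul]
    exact pow_le_pow_left₀ (by norm_num) hx.le q
  refine (expect_le_expect fun G _ => h1 G).trans ?_
  rw [expect_sum_comm]
  have h2 : Real.exp (1 / 2) ≤ 5 / 3 := by
    refine (pow_le_pow_iff_left₀ (Real.exp_pos _).le (by norm_num) two_ne_zero).1 ?_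
    rw [← Real.exp_nat_mul]
    have := Real.exp_one_lt_d9
    norm_num at this ⊢
    linarith
  have h3 : ∀ x : Fin n, 𝔼 G, rho x G ^ (R * q) / 2 ^ q ≤ (5 / 6) ^ q := fun x => by
    rw [← expect_div, div_le_iff₀ (by positivity), ← mul_pow]
    refine (avg_rho_pow x _).trans (le_trans ?_ (pow_le_pow_left₀ (Real.exp_pos _).le
      (h2.trans (by norm_num)) q))
    rw [← Real.exp_nat_mul, Real.exp_le_exp, div_le_iff₀ (by positivity)]
    have h' : (q : ℝ) * R ^ 2 ≤ n := by exact_mod_cast h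
    have hq : (0 : ℝ) ≤ q := by positivity
    push_cast
    nlinarith [mul_le_mul_of_nonneg_left h' hq]
  refine (sum_le_sum fun x _ => h3 x).trans ?_
  simp

variable [Fintype L] [DecidableEq L]

theorem avg_bst_le {R : ℕ} (x : Fin n) {Λ : Finset L} (hΛ : #Λ ≤ R) {f : Finset (Pos n) → ℝ}
    (hf : ∀ G, 0 ≤ f G) (hH : ∀ G, Hi R G → f G = 0) :
    𝔼 η : L → Fin n, 𝔼 G, f (G ∪ bst x η Λ) ≤ 2 * 𝔼 G, f G := by
  simp only [avg_union]
  rw [expect_comm, mul_expect]
  refine expect_le_expect fun G _ => ?_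
  rw [← expect_mul]
  by_cases h : Hi R G
  · simp [hH G h]
  refine mul_le_mul_of_nonneg_right ?_ (hf G)
  refine (expect_le_expect fun η _ => dens_biUnion_le Λ (fun s => E {x, η s}) G).trans ?_
  rw [avg_prod (fun _ y => dens (E {x, y}) G) Λ, prod_const]
  change rho x G ^ #Λ ≤ 2
  rcases le_total (rho x G) 1 with h1 | h1
  · exact (pow_le_one₀ (rho_nonneg x G) h1).trans one_le_two
  · exact (pow_le_pow_right₀ h1 hΛ).trans (not_lt.1 fun h' => h ⟨x, h'⟩)

omit [Nonempty (Fin n)] in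
theorem avg_mem (Y : Finset (Fin n)) : 𝔼 y : Fin n, ind (y ∈ Y) = #Y / n := by
  have h : ∀ y, ind (y ∈ Y) = if y ∈ Y then 1 else 0 := fun y => by
    by_cases hy : y ∈ Y <;> simp [ind, hy]
  rw [Fintype.expect_eq_sum_div_card, Fintype.card_fin]
  simp [h]

theorem avg_hit (x : Fin n) (Λ : Finset L) :
    𝔼 η : L → Fin n, ind (x ∈ Λ.image η) ≤ #Λ / n := by
  have h1 : ∀ η : L → Fin n, ind (x ∈ Λ.image η) ≤ ∑ s ∈ Λ, ind (η s ∈ ({x} : Finset _)) :=
    fun η => (ind_mono fun h => by simpa using h).trans (ind_exists_le Λ _)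
  refine (expect_le_expect fun η _ => h1 η).trans (le_of_eq ?_)
  rw [expect_sum_comm]
  have h2 : ∀ s, 𝔼 η : L → Fin n, ind (η s ∈ ({x} : Finset _)) = 1 / n := fun s => by
    have := avg_prod (fun _ (y : Fin n) => ind (y ∈ ({x} : Finset _))) ({s} : Finset L)
    simpa only [prod_singleton, avg_mem, card_singleton, Nat.cast_one] using this
  simp only [h2, sum_const, nsmul_eq_mul]
  ring

theorem overlap {R : ℕ} (hR : R ^ 2 ≤ n) {Λ : Finset L} (hΛ : #Λ ≤ R) (x x' : Fin n) :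
    𝔼 η : L → Fin n, 𝔼 η' : L → Fin n, (2 : ℝ) ^ #(bst x η Λ ∩ bst x' η' Λ) ≤
      1 + (R / n) ^ 2 + ind (x' ∈ ({x} : Finset _)) * (2 * R ^ 2 / n) := by
  have hn := n_pos (n := n)
  have hΛ' : (#Λ : ℝ) ≤ R := by exact_mod_cast hΛ
  by_cases hx : x' = x
  · subst hx
    rw [ind_pos (mem_singleton_self _), expect_comm]
    refine expect_le univ_nonempty fun η' _ => ?_
    have h1 : ∀ η : L → Fin n, (2 : ℝ) ^ #(bst x' η Λ ∩ bst x' η' Λ) ≤
        ∏ s ∈ Λ, (1 + ind (η s ∈ Λ.image η')) := fun η => by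
      have h2 : bst x' η Λ ∩ bst x' η' Λ ⊆
          (Λ.filter fun s => η s ∈ Λ.image η').biUnion fun s => E {x', η s} := fun e he => by
        obtain ⟨s, hs, h3⟩ := mem_biUnion.1 (mem_inter.1 he).1
        obtain ⟨s', hs', h4⟩ := mem_biUnion.1 (mem_inter.1 he).2
        exact mem_biUnion.2 ⟨s, mem_filter.2 ⟨hs, mem_image.2 ⟨s', hs', E_pair_inj h4 h3⟩⟩, h3⟩
      have h3 := (card_le_card h2).trans (card_biUnion_le_card_mul _ _ 1 fun s _ => card_E_pair _ _)
      rw [mul_one] at h3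
      refine (pow_le_pow_right₀ one_le_two h3).trans (le_of_eq ?_)
      rw [← prod_const, prod_filter]
      refine prod_congr rfl fun s _ => ?_
      by_cases h : η s ∈ Λ.image η'
      · rw [if_pos h, ind_pos h, one_add_one_eq_two]
      · rw [if_neg h, ind_neg h, add_zero]
    refine (expect_le_expect fun η _ => h1 η).trans ?_
    rw [avg_prod (fun _ y => 1 + ind (y ∈ Λ.image η')) Λ, prod_const, expect_add_distrib, avg_mem,
      Fintype.expect_const]
    have h2 : (#(Λ.image η') : ℝ) ≤ R := le_trans (by exact_mod_cast card_image_le) hΛ'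
    have h3 : (R : ℝ) ^ 2 / n ≤ 1 := by
      rw [div_le_one hn]
      exact_mod_cast hR
    have h4 : (1 + (#(Λ.image η') : ℝ) / n) ^ #Λ ≤ Real.exp (R ^ 2 / n) := by
      rw [add_comm]
      refine (pow_le_pow_left₀ (by positivity) (Real.add_one_le_exp _) _).trans ?_
      rw [← Real.exp_nat_mul, Real.exp_le_exp, ← mul_div_assoc, sq]
      gcongr
    have h5 := (abs_le.1 (Real.abs_exp_sub_one_le (x := (R : ℝ) ^ 2 / n)
      (by rwa [abs_of_nonneg (by positivity)]))).2
    rw [abs_of_nonneg (by positivity)] at h5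
    have h6 : (0 : ℝ) ≤ (R / n) ^ 2 := by positivity
    rw [one_mul, mul_div_assoc]
    linarith
  · rw [ind_neg (by simpa using hx), zero_mul, add_zero]
    have h1 : ∀ η η' : L → Fin n, (2 : ℝ) ^ #(bst x η Λ ∩ bst x' η' Λ) ≤
        1 + ind (x' ∈ Λ.image η) * ind (x ∈ Λ.image η') := fun η η' => by
      have h2 : ∀ e ∈ bst x η Λ ∩ bst x' η' Λ,
          e ∈ E {x, x'} ∧ x' ∈ Λ.image η ∧ x ∈ Λ.image η' := fun e he => by
        obtain ⟨s, hs, h3⟩ := mem_biUnion.1 (mem_inter.1 he).1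
        obtain ⟨s', hs', h4⟩ := mem_biUnion.1 (mem_inter.1 he).2
        rw [mem_E_pair] at h3 h4 ⊢
        exact ⟨by omega, mem_image.2 ⟨s, hs, by omega⟩, mem_image.2 ⟨s', hs', by omega⟩⟩
      rcases (bst x η Λ ∩ bst x' η' Λ).eq_empty_or_nonempty with h | ⟨e, he⟩
      · rw [h, card_empty, pow_zero]
        exact le_add_of_nonneg_right (mul_nonneg (ind_nonneg _) (ind_nonneg _))
      · rw [ind_pos (h2 e he).2.1, ind_pos (h2 e he).2.2]
        have := (card_le_card fun e he => (h2 e he).1).trans (card_E_pair x x')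
        exact (pow_le_pow_right₀ one_le_two this).trans (by norm_num)
    refine (expect_le_expect fun η _ => expect_le_expect fun η' _ => h1 η η').trans ?_
    simp only [expect_add_distrib, Fintype.expect_const, ← mul_expect, ← expect_mul]
    have h3 : (#Λ : ℝ) / n ≤ R / n := by gcongr
    rw [sq]
    exact add_le_add_right (mul_le_mul ((avg_hit x' Λ).trans h3) ((avg_hit x Λ).trans h3)
      (expect_nonneg fun _ _ => ind_nonneg _) (by positivity)) _

theorem star_neutral {R : ℕ} (hR0 : 0 < R) (hR : R ^ 2 ≤ n) {Λ : Finset L} (hΛ : #Λ ≤ R)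
    {f : Finset (Pos n) → ℝ} (hf0 : ∀ G, 0 ≤ f G) (hf1 : ∀ G, f G ≤ 1) :
    𝔼 σ : Fin n × (L → Fin n), 𝔼 G, f (G ∪ bst σ.1 σ.2 Λ) ≤ 𝔼 G, f G + 2 * R / n := by
  have hn := n_pos (n := n)
  obtain ⟨δ, hδ⟩ : ∃ δ : ℝ, δ = 2 * R / n := ⟨_, rfl⟩
  have hδ0 : 0 < δ := by rw [hδ]; positivity
  let W : Finset (Pos n) → ℝ := fun G => 𝔼 σ : Fin n × (L → Fin n), dens (bst σ.1 σ.2 Λ) G
  have h1 : 𝔼 G, W G = 1 := by
    simp only [W]
    rw [expect_comm]
    simp only [avg_dens, Fintype.expect_const]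
  have h2 : 𝔼 G, W G * W G ≤ 1 + δ ^ 2 := by
    simp only [W, Fintype.expect_mul_expect]
    rw [expect_comm]
    simp only [expect_comm (univ : Finset (Finset (Pos n))), avg_dens_mul]
    simp only [← univ_product_univ, expect_product]
    have h3 : ∀ x : Fin n, 𝔼 η : L → Fin n, 𝔼 x' : Fin n, 𝔼 η' : L → Fin n,
        (2 : ℝ) ^ #(bst x η Λ ∩ bst x' η' Λ) ≤ 1 + δ ^ 2 := fun x => by
      rw [expect_comm]
      refine (expect_le_expect fun x' _ => overlap hR hΛ x x').trans ?_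
      simp only [expect_add_distrib, Fintype.expect_const, ← expect_mul, avg_mem, card_singleton]
      have h4 : δ ^ 2 = 4 * ((R : ℝ) / n) ^ 2 := by rw [hδ]; ring
      have h5 : ((1 : ℕ) : ℝ) / n * (2 * R ^ 2 / n) = 2 * ((R : ℝ) / n) ^ 2 := by
        push_cast; ring
      have h6 : (0 : ℝ) ≤ ((R : ℝ) / n) ^ 2 := by positivity
      linarith
    exact expect_le univ_nonempty fun x _ => h3 x
  have h3 : ∀ G, W G * f G ≤ f G + (δ / 2 + 1 / (2 * δ)) + 1 / (2 * δ) * (W G * W G) -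
      1 / δ * W G := fun G => by
    have h4 : (W G - 1) * f G ≤ δ / 2 + (W G - 1) ^ 2 / (2 * δ) := by
      have h5 : f G ^ 2 ≤ 1 := pow_le_one₀ (hf0 G) (hf1 G)
      rw [← sub_nonneg, show δ / 2 + (W G - 1) ^ 2 / (2 * δ) - (W G - 1) * f G =
        ((W G - 1 - δ * f G) ^ 2 + δ ^ 2 * (1 - f G ^ 2)) / (2 * δ) by field_simp; ring]
      exact div_nonneg (add_nonneg (sq_nonneg _) (mul_nonneg (sq_nonneg _) (sub_nonneg.2 h5)))
        (by positivity)
    have h5 : (W G - 1) ^ 2 / (2 * δ) =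
        1 / (2 * δ) + 1 / (2 * δ) * (W G * W G) - 1 / δ * W G := by field_simp; ring
    linarith
  simp only [avg_union]
  rw [expect_comm, ← hδ]
  simp only [← expect_mul]
  refine (expect_le_expect fun G _ => h3 G).trans ?_
  simp only [expect_sub_distrib, expect_add_distrib, Fintype.expect_const, ← mul_expect, h1]
  have h6 := mul_le_mul_of_nonneg_left h2 (show 0 ≤ 1 / (2 * δ) by positivity)
  have h7 : 1 / (2 * δ) * (1 + δ ^ 2) = δ / 2 + 1 / (2 * δ) := by field_simp; ring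
  have h8 : 1 / δ = 1 / (2 * δ) + 1 / (2 * δ) := by field_simp; ring
  linarith

end Pool.Agent.Lib.MP_21ae8a_lc.MC
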