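import Pool.Agent.Lib.MP_21ae8a_lc.MC.Star

/-! Sprinkled graphs, persistent minimal pairs and the removal of one vertex. -/

namespace Pool.Agent.Lib.MP_21ae8a_lc.MC

open Finset Function
open scoped BigOperators

variable {n D T : ℕ}

/-- Slots: a level and a position. -/
abbrev Sl (D T : ℕ) : Type := Fin D × Fin T

/-- Boosts. -/
abbrev Yt (n D T : ℕ) : Type := Fin n → Sl D T → Fin n

/-- Stars. -/
abbrev Zt (n D T : ℕ) : Type := Sl D T → Fin n × (Sl D T → Fin n)

/-- The slots of level below `a`. -/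
def lv (D T a : ℕ) : Finset (Sl D T) := univ.filter fun s => (s.1 : ℕ) < a

theorem mem_lv {a : ℕ} {s : Sl D T} : s ∈ lv D T a ↔ (s.1 : ℕ) < a := by simp [lv]

theorem lv_mono {a b : ℕ} (h : a ≤ b) : lv D T a ⊆ lv D T b := fun _ hs =>
  mem_lv.2 ((mem_lv.1 hs).trans_le h)

theorem card_lv (a : ℕ) : #(lv D T a) ≤ D * T := (card_le_univ _).trans (by simp)

/-- The star in a slot. -/
def sta (z : Zt n D T) (s : Sl D T) : Finset (Pos n) := bst (z s).1 (z s).2 (lv D T (s.1 + 1))

/-- The sprinkled graph. -/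
def Gam (G : Finset (Pos n)) (y : Yt n D T) (z : Zt n D T) (a : ℕ) (U : Finset (Fin n))
    (J : Finset (Pos n)) : Finset (Pos n) :=
  G ∪ J ∪ (U.biUnion fun u => bst u (y u) (lv D T a)) ∪ (lv D T a).biUnion (sta z)

section

variable {G G' J J' X : Finset (Pos n)} {y y' : Yt n D T} {z z' : Zt n D T} {a b : ℕ}
  {U U' : Finset (Fin n)}

theorem G_sub : G ⊆ Gam G y z a U J :=
  (subset_union_left.trans subset_union_left).trans subset_union_left

theorem J_sub : J ⊆ Gam G y z a U J :=
  (subset_union_right.trans subset_union_left).trans subset_union_left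

theorem bst_sub {u : Fin n} (hu : u ∈ U) (h : b ≤ a) : bst u (y u) (lv D T b) ⊆ Gam G y z a U J :=
  (bst_mono _ _ (lv_mono h)).trans (((subset_biUnion_of_mem (fun u => bst u (y u) (lv D T a))
    hu).trans subset_union_right).trans subset_union_left)

theorem slot_sub {u : Fin n} (hu : u ∈ U) {s : Sl D T} (h : (s.1 : ℕ) < a) :
    E {u, y u s} ⊆ Gam G y z a U J :=
  (subset_biUnion_of_mem (fun s => E {u, y u s}) (mem_lv.2 h)).trans (bst_sub hu le_rfl)

theorem sta_sub {s : Sl D T} (h : (s.1 : ℕ) < a) : sta z s ⊆ Gam G y z a U J :=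
  (subset_biUnion_of_mem _ (mem_lv.2 h)).trans subset_union_right

theorem Gam_sub (h1 : G ⊆ X) (h2 : J ⊆ X)
    (h3 : ∀ u ∈ U, ∀ s : Sl D T, (s.1 : ℕ) < a → E {u, y u s} ⊆ X)
    (h4 : ∀ s : Sl D T, (s.1 : ℕ) < a → sta z s ⊆ X) : Gam G y z a U J ⊆ X :=
  union_subset (union_subset (union_subset h1 h2) (biUnion_subset.2 fun u hu =>
    biUnion_subset.2 fun s hs => h3 u hu s (mem_lv.1 hs))) (biUnion_subset.2 fun s hs =>
      h4 s (mem_lv.1 hs))

theorem Gam_le (h1 : G ⊆ Gam G' y z b U' J') (h2 : J ⊆ Gam G' y z b U' J') (h3 : U ⊆ U')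
    (h4 : a ≤ b) : Gam G y z a U J ⊆ Gam G' y z b U' J' :=
  Gam_sub h1 h2 (fun _ hu _ hs => slot_sub (h3 hu) (hs.trans_le h4))
    fun _ hs => sta_sub (hs.trans_le h4)

theorem Gam_mono (h2 : J ⊆ J') (h3 : U ⊆ U') (h4 : a ≤ b) :
    Gam G y z a U J ⊆ Gam G y z b U' J' := Gam_le G_sub (h2.trans J_sub) h3 h4

theorem Gam_congr (h1 : ∀ u ∈ U, ∀ s : Sl D T, (s.1 : ℕ) < a → y u s = y' u s)
    (h2 : ∀ s : Sl D T, (s.1 : ℕ) < a → z s = z' s) : Gam G y z a U J = Gam G y' z' a U J := by
  refine Subset.antisymm (Gam_sub G_sub J_sub (fun u hu s hs => ?_) fun s hs => ?_)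
    (Gam_sub G_sub J_sub (fun u hu s hs => ?_) fun s hs => ?_)
  · rw [h1 u hu s hs]; exact slot_sub hu hs
  · rw [sta, h2 s hs]; exact sta_sub hs
  · rw [← h1 u hu s hs]; exact slot_sub hu hs
  · rw [sta, ← h2 s hs]; exact sta_sub hs

theorem Gam_upd_y {x : Fin n} (hx : x ∉ U) (η : Sl D T → Fin n) :
    Gam G (update y x η) z a U J = Gam G y z a U J :=
  Gam_congr (fun u hu _ _ => by rw [update_of_ne (ne_of_mem_of_not_mem hu hx)]) fun _ _ => rfl

theorem Gam_upd_z (w : Sl D T) (σ : Fin n × (Sl D T → Fin n)) :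
    Gam G y (update z w σ) a U J ⊆ Gam G y z a U J ∪ bst σ.1 σ.2 (lv D T (w.1 + 1)) := by
  refine Gam_sub (G_sub.trans subset_union_left) (J_sub.trans subset_union_left)
    (fun u hu s hs => (slot_sub hu hs).trans subset_union_left) fun s hs => ?_
  by_cases h : s = w
  · rw [sta, h, update_self]; exact subset_union_right
  · rw [sta, update_of_ne h]; exact (sta_sub hs).trans subset_union_left

theorem Gam_upd_slot (u x : Fin n) (w : Sl D T) :
    Gam G (update y u (update (y u) w x)) z a U J ⊆ Gam G y z a U J ∪ E {u, x} := by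
  refine Gam_sub (G_sub.trans subset_union_left) (J_sub.trans subset_union_left)
    (fun u' hu s hs => ?_) fun s hs => (sta_sub hs).trans subset_union_left
  by_cases h : u' = u
  · subst h
    rw [update_self]
    by_cases h' : s = w
    · rw [h', update_self]; exact subset_union_right
    · rw [update_of_ne h']; exact (slot_sub hu hs).trans subset_union_left
  · rw [update_of_ne h]; exact (slot_sub hu hs).trans subset_union_left

end

/-- No edge and no isolated vertex can be dropped at level `b`. -/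
def Low (g : Finset (Pos n) → Prop) (G : Finset (Pos n)) (y : Yt n D T) (z : Zt n D T) (b : ℕ)
    (U : Finset (Fin n)) (J : Finset (Pos n)) : Prop :=
  (∀ e ∈ J, ¬g (Gam G y z b U (J.erase e))) ∧
    ∀ u ∈ U, J ⊆ E (U.erase u) → ¬g (Gam G y z b (U.erase u) J)

/-- A persistent minimal pair. -/
def Mn (g : Finset (Pos n) → Prop) (G : Finset (Pos n)) (y : Yt n D T) (z : Zt n D T) (a b : ℕ)
    (U : Finset (Fin n)) (J : Finset (Pos n)) : Prop :=
  g (Gam G y z a U J) ∧ Low g G y z b U J

/-- The probability of a persistent minimal pair. -/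
noncomputable def Pr (D T : ℕ) (g : Finset (Pos n) → Prop) (a b : ℕ) (U : Finset (Fin n))
    (J : Finset (Pos n)) : ℝ :=
  𝔼 y : Yt n D T, 𝔼 G, 𝔼 z : Zt n D T, ind (Mn g G y z a b U J)

theorem Pr_nonneg (g : Finset (Pos n) → Prop) (a b : ℕ) (U : Finset (Fin n))
    (J : Finset (Pos n)) : 0 ≤ Pr D T g a b U J :=
  expect_nonneg fun _ _ => expect_nonneg fun _ _ => expect_nonneg fun _ _ => ind_nonneg _

theorem Low_upd_y {g : Finset (Pos n) → Prop} {G J : Finset (Pos n)} {y : Yt n D T}
    {z : Zt n D T} {b : ℕ} {U : Finset (Fin n)} {x : Fin n} (hx : x ∉ U) (η : Sl D T → Fin n) :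
    Low g G (update y x η) z b U J ↔ Low g G y z b U J := by
  simp only [Low, Gam_upd_y hx, Gam_upd_y (show x ∉ U.erase _ from fun h => hx (mem_of_mem_erase h))]

theorem sum_compl_le (U : Finset (Fin n)) {φ ψ : Fin n → ℝ} (h : ∀ x, x ∉ U → φ x ≤ ψ x)
    (h0 : ∀ x, 0 ≤ ψ x) : ∑ x ∈ Uᶜ, φ x ≤ n * 𝔼 x, ψ x := by
  have := Fintype.card_mul_expect ψ
  rw [Fintype.card_fin] at this
  rw [this]
  exact (sum_le_sum fun x hx => h x (mem_compl.1 hx)).trans
    (sum_le_sum_of_subset_of_nonneg (subset_univ _) fun x _ _ => h0 x)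

variable [Nonempty (Fin n)] {g : Finset (Pos n) → Prop} {a b : ℕ} {U : Finset (Fin n)}
  {J : Finset (Pos n)}

theorem step_iso (hg : Monotone g) (hab : a < b) (haD : a < D) (hJ : J ⊆ E U) :
    T * ∑ x ∈ Uᶜ, Pr D T g a b (insert x U) J ≤ n * Pr D T g (a + 1) b U J := by
  let w : Fin T → Sl D T := fun t => (⟨a, haD⟩, t)
  let pc : Fin n × (Sl D T → Fin n) → Finset (Pos n) := fun σ => bst σ.1 σ.2 (lv D T (a + 1))
  let Ev : Finset (Pos n) → Yt n D T → Zt n D T → Fin n × (Sl D T → Fin n) → Prop :=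
    fun G y z σ => ¬g (Gam G y z a U J ∪ univ.biUnion fun t => pc (z (w t))) ∧
      g (Gam G y z a U J ∪ pc σ) ∧ ∀ t, Low g G y (update z (w t) σ) b U J
  have hw : ∀ G y z c, a < c →
      (Gam G y z a U J ∪ univ.biUnion fun t => pc (z (w t))) ⊆ Gam G y z c U J :=
    fun G y z c hc => union_subset (Gam_mono Subset.rfl Subset.rfl hc.le)
      (biUnion_subset.2 fun t _ => sta_sub (s := w t) hc)
  have h1 : ∀ x, x ∉ U → ∀ G y z, Mn g G y z a b (insert x U) J → Ev G y z (x, y x) :=
    fun x hx G y z h => by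
      refine ⟨fun h' => ?_, hg ?_ h.1, fun t => ⟨fun e he h' => h.2.1 e he (hg ?_ h'),
        fun u hu hJu h' => h.2.2 u (mem_insert_of_mem hu) (hJu.trans (E_mono
          (erase_subset_erase _ (subset_insert _ _)))) (hg ?_ h')⟩⟩
      · have := h.2.2 x (mem_insert_self _ _)
        rw [erase_insert hx] at this
        exact this hJ (hg (hw G y z b hab) h')
      · refine Gam_sub (G_sub.trans subset_union_left) (J_sub.trans subset_union_left)
          (fun u hu s hs => ?_) fun s hs => (sta_sub hs).trans subset_union_left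
        rcases mem_insert.1 hu with rfl | hu
        · exact (subset_biUnion_of_mem (fun s => E {u, y u s})
            (mem_lv.2 (hs.trans (Nat.lt_succ_self a)))).trans subset_union_right
        · exact (slot_sub hu hs).trans subset_union_left
      · exact (Gam_upd_z _ _).trans (union_subset (Gam_mono Subset.rfl (subset_insert _ _) le_rfl)
          (bst_sub (mem_insert_self _ _) hab))
      · exact (Gam_upd_z _ _).trans (union_subset (Gam_mono Subset.rfl
          (erase_subset_erase _ (subset_insert _ _)) le_rfl)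
          (bst_sub (mem_erase.2 ⟨(ne_of_mem_of_not_mem hu hx).symm, mem_insert_self _ _⟩) hab))
  have h2 : ∀ x, x ∉ U → Pr D T g a b (insert x U) J ≤
      𝔼 y, 𝔼 η, 𝔼 G, 𝔼 z, ind (Ev G y z (x, η)) := fun x hx => by
    refine (expect_le_expect fun y _ => expect_le_expect fun G _ => expect_le_expect fun z _ =>
      ind_mono (h1 x hx G y z)).trans (le_of_eq ?_)
    rw [← upd_avg x fun y => 𝔼 G, 𝔼 z, ind (Ev G y z (x, y x))]
    simp only [Ev, update_self, Gam_upd_y hx, Low_upd_y hx]
  have h3 := sum_compl_le U h2 fun x => expect_nonneg fun _ _ => expect_nonneg fun _ _ =>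
    expect_nonneg fun _ _ => expect_nonneg fun _ _ => ind_nonneg _
  have h4 : 𝔼 x, 𝔼 y, 𝔼 η, 𝔼 G, 𝔼 z, ind (Ev G y z (x, η)) =
      𝔼 y, 𝔼 G, 𝔼 z, 𝔼 σ, ind (Ev G y z σ) := by
    rw [expect_comm]
    refine expect_congr rfl fun y _ => ?_
    rw [← expect_product' univ univ fun x η => 𝔼 G, 𝔼 z, ind (Ev G y z (x, η)),
      univ_product_univ, expect_comm]
    exact expect_congr rfl fun G _ => expect_comm _ _ _
  rw [h4] at h3
  refine (mul_le_mul_of_nonneg_left h3 (by positivity)).trans ?_
  rw [mul_left_comm]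
  refine mul_le_mul_of_nonneg_left ?_ (by positivity)
  rw [mul_expect]
  refine expect_le_expect fun y _ => ?_
  rw [mul_expect]
  refine expect_le_expect fun G _ => ?_
  refine (window (w := w) (fun t t' h => (Prod.ext_iff.1 h).2) pc (fun z => Gam G y z a U J)
    (fun z t σ => Gam_congr (fun _ _ _ _ => rfl) fun s hs => update_of_ne (fun h => by
      rw [h] at hs; exact lt_irrefl _ hs) _ _) hg (fun z => Low g G y z b U J) (Ev G y)
    fun _ _ h => h).trans ?_
  exact expect_le_expect fun z _ => ind_mono fun h =>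
    ⟨hg (hw G y z _ (Nat.lt_succ_self a)) h.1, h.2⟩

theorem step_edge (hg : Monotone g) (hH : ∀ G, Hi (D * T) G → g G) (hab : a < b) (haD : a < D)
    (hJ : J ⊆ E U) {N : Finset (Fin n)} (hN : N ⊆ U) {u₀ : Fin n} (hu₀ : u₀ ∈ N)
    (hc : ∀ u ∈ N, J ⊆ E (U.erase u) → u = u₀) :
    T * ∑ x ∈ Uᶜ, Pr D T g a b (insert x U) (J ∪ bst x id N) ≤
      2 ^ #N * (n * Pr D T g (a + 1) b U J) := by
  let w : Fin T → Sl D T := fun t => (⟨a, haD⟩, t)
  let pc : Fin n → Finset (Pos n) := fun x => E {u₀, x}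
  let Ev : Finset (Pos n) → Yt n D T → Zt n D T → Fin n → Prop :=
    fun G y z x => ¬g (Gam G y z a U J ∪ univ.biUnion fun t => pc (y u₀ (w t))) ∧
      g (Gam G y z a U J ∪ pc x) ∧ ∀ t, Low g G (update y u₀ (update (y u₀) (w t) x)) z b U J
  have hw : ∀ G y z c, a < c →
      (Gam G y z a U J ∪ univ.biUnion fun t => pc (y u₀ (w t))) ⊆ Gam G y z c U J :=
    fun G y z c hc => union_subset (Gam_mono Subset.rfl Subset.rfl hc.le)
      (biUnion_subset.2 fun t _ => slot_sub (s := w t) (hN hu₀) hc)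
  have h1 : ∀ x, x ∉ U → ∀ G y z, Mn g G y z a b (insert x U) (J ∪ bst x id N) →
      Ev (G ∪ bst x id (N.erase u₀) ∪ bst x (y x) (lv D T a)) y z x := fun x hx G y z h => by
    have hxu : ∀ u ∈ U, x ≠ u := fun u hu => (ne_of_mem_of_not_mem hu hx).symm
    have hJx : ∀ e ∈ J, ∀ u, e ∉ E {x, u} := fun e he u h' => by
      have h2 := mem_E.1 (hJ he)
      rcases mem_E_pair.1 h' with h3 | h3
      · exact hx (h3.1 ▸ h2.1)
      · exact hx (h3.2 ▸ h2.2)
    have hpc : pc x ⊆ bst x id N := by
      simp only [pc]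
      rw [pair_comm]
      exact subset_biUnion_of_mem (fun u => E {x, id u}) hu₀
    have hG : ∀ {V : Finset (Fin n)} {K : Finset (Pos n)}, x ∈ V → bst x id (N.erase u₀) ⊆ K →
        G ∪ bst x id (N.erase u₀) ∪ bst x (y x) (lv D T a) ⊆ Gam G y z b V K := fun h1 h2 =>
      union_subset (union_subset G_sub (h2.trans J_sub)) (bst_sub h1 hab.le)
    obtain ⟨e₀, he₀⟩ := E_pair_nonempty (hxu u₀ (hN hu₀))
    have hl : ¬g (Gam (G ∪ bst x id (N.erase u₀) ∪ bst x (y x) (lv D T a)) y z b U J) :=
      fun h' => h.2.1 e₀ (mem_union_right _ (mem_biUnion.2 ⟨u₀, hu₀, he₀⟩)) (hg (Gam_le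
        (hG (mem_insert_self _ _) fun e he => by
          obtain ⟨u, hu, h2⟩ := mem_biUnion.1 he
          exact mem_erase.2 ⟨fun h3 => (mem_erase.1 hu).1 (E_pair_inj h2 (h3 ▸ he₀)),
            mem_union_right _ (bst_mono _ _ (erase_subset _ _) he)⟩)
        (Subset.trans (fun e he => mem_erase.2 ⟨fun h3 => hJx e he u₀ (h3 ▸ he₀),
          mem_union_left _ he⟩) J_sub) (subset_insert _ _) le_rfl) h')
    refine ⟨fun h' => hl (hg (hw _ y z b hab) h'), hg ?_ h.1, fun t => ⟨fun e he h' => ?_,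
      fun u hu hJu h' => ?_⟩⟩
    · refine Gam_sub (((subset_union_left.trans subset_union_left).trans G_sub).trans
        subset_union_left) (union_subset (J_sub.trans subset_union_left)
        (biUnion_subset.2 fun u hu => ?_)) (fun u hu s hs => ?_)
        fun s hs => (sta_sub hs).trans subset_union_left
      · by_cases h2 : u = u₀
        · rw [h2, pair_comm]; exact subset_union_right
        · exact (((subset_biUnion_of_mem (fun u => E {x, id u}) (mem_erase.2 ⟨h2, hu⟩)).trans
            (subset_union_right.trans subset_union_left)).trans G_sub).trans subset_union_left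
      · rcases mem_insert.1 hu with rfl | hu
        · exact (((subset_biUnion_of_mem (fun s => E {u, y u s}) (mem_lv.2 hs)).trans
            subset_union_right).trans G_sub).trans subset_union_left
        · exact (slot_sub hu hs).trans subset_union_left
    · have h2 : bst x id N ⊆ (J ∪ bst x id N).erase e := fun e' he' => by
        obtain ⟨u, _, h3⟩ := mem_biUnion.1 he'
        exact mem_erase.2 ⟨fun h4 => hJx e he u (h4 ▸ h3), mem_union_right _ he'⟩
      exact h.2.1 e (mem_union_left _ he) (hg ((Gam_upd_slot _ _ _).trans (union_subset (Gam_le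
        (hG (mem_insert_self _ _) ((bst_mono _ _ (erase_subset _ _)).trans h2))
        ((erase_subset_erase _ subset_union_left).trans J_sub) (subset_insert _ _) le_rfl)
        ((hpc.trans h2).trans J_sub))) h')
    · by_cases huN : u ∈ N
      · rw [hc u huN hJu, Gam_upd_y (notMem_erase _ _)] at h'
        exact hl (hg (Gam_mono Subset.rfl (erase_subset _ _) le_rfl) h')
      · have hxe : x ∈ (insert x U).erase u := mem_erase.2 ⟨hxu u hu, mem_insert_self _ _⟩
        refine h.2.2 u (mem_insert_of_mem hu) (union_subset (hJu.trans (E_mono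
          (erase_subset_erase _ (subset_insert _ _)))) (biUnion_subset.2 fun u' hu' => E_mono
            (insert_subset hxe (singleton_subset_iff.2 (mem_erase.2
              ⟨ne_of_mem_of_not_mem hu' huN, mem_insert_of_mem (hN hu')⟩))))) (hg ?_ h')
        exact (Gam_upd_slot _ _ _).trans (union_subset (Gam_le
          (hG hxe ((bst_mono _ _ (erase_subset _ _)).trans subset_union_right))
          (subset_union_left.trans J_sub) (erase_subset_erase _ (subset_insert _ _)) le_rfl)
          ((hpc.trans subset_union_right).trans J_sub))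
  have h0 : ∀ y x G, 0 ≤ 𝔼 z, ind (Ev G y z x) := fun _ _ _ => expect_nonneg fun _ _ => ind_nonneg _
  have h2 : ∀ x, x ∉ U → Pr D T g a b (insert x U) (J ∪ bst x id N) ≤
      2 ^ #N * 𝔼 y, 𝔼 G, 𝔼 z, ind (Ev G y z x) := fun x hx => by
    have hne : u₀ ≠ x := ne_of_mem_of_not_mem (hN hu₀) hx
    refine (expect_le_expect fun y _ => expect_le_expect fun G _ => expect_le_expect fun z _ =>
      ind_mono (h1 x hx G y z)).trans ?_
    rw [← upd_avg x fun y => 𝔼 G, 𝔼 z,
      ind (Ev (G ∪ bst x id (N.erase u₀) ∪ bst x (y x) (lv D T a)) y z x), mul_expect]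
    refine expect_le_expect fun y _ => ?_
    have h3 : ∀ η G z, Ev G (update y x η) z x ↔ Ev G y z x := fun η G z => by
      simp only [Ev, Gam_upd_y hx, update_of_ne hne, update_comm hne.symm, Low_upd_y hx]
    simp only [update_self, h3]
    have h4 : (2 : ℝ) ^ #(bst x id (N.erase u₀)) * 2 ≤ 2 ^ #N := by
      rw [← pow_succ]
      refine pow_le_pow_right₀ one_le_two ?_
      have := card_biUnion_le_card_mul (N.erase u₀) (fun u => E {x, id u}) 1
        fun _ _ => card_E_pair _ _
      rw [← card_erase_add_one hu₀]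
      exact Nat.succ_le_succ (this.trans (mul_one _).le)
    refine (expect_le_expect fun η _ => avg_union_le (bst x id (N.erase u₀))
      (f := fun G => 𝔼 z, ind (Ev (G ∪ bst x η (lv D T a)) y z x)) fun G => h0 _ _ _).trans ?_
    rw [← mul_expect]
    refine (mul_le_mul_of_nonneg_left (avg_bst_le x (card_lv a)
      (f := fun G => 𝔼 z, ind (Ev G y z x)) (h0 y x) fun G hG => expect_eq_zero fun z _ =>
        ind_neg fun h => h.1 (hg (G_sub.trans subset_union_left) (hH G hG))) (by positivity)).trans ?_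
    rw [← mul_assoc]
    exact mul_le_mul_of_nonneg_right h4 (expect_nonneg fun G _ => h0 y x G)
  have h3 := sum_compl_le U h2 fun x => mul_nonneg (by positivity)
    (expect_nonneg fun y _ => expect_nonneg fun G _ => h0 y x G)
  rw [← mul_expect, expect_comm, ← upd_avg u₀] at h3
  refine (mul_le_mul_of_nonneg_left h3 (by positivity)).trans ?_
  rw [mul_left_comm (n : ℝ), mul_left_comm, mul_left_comm (T : ℝ)]
  refine mul_le_mul_of_nonneg_left (mul_le_mul_of_nonneg_left ?_ (by positivity)) (by positivity)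
  rw [Pr, ← upd_avg u₀ fun y => 𝔼 G, 𝔼 z : Zt n D T, ind (Mn g G y z (a + 1) b U J), mul_expect]
  refine expect_le_expect fun y _ => ?_
  have h4 : 𝔼 ζ, 𝔼 x, 𝔼 G, 𝔼 z, ind (Ev G (update y u₀ ζ) z x) =
      𝔼 G, 𝔼 z, 𝔼 ζ, 𝔼 x, ind (Ev G (update y u₀ ζ) z x) := by
    rw [← expect_product' univ univ fun ζ x => 𝔼 G, 𝔼 z, ind (Ev G (update y u₀ ζ) z x),
      expect_comm]
    refine expect_congr rfl fun G _ => ?_
    rw [expect_comm]
    exact expect_congr rfl fun z _ =>
      expect_product' univ univ fun ζ x => ind (Ev G (update y u₀ ζ) z x)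
  rw [h4, expect_comm univ univ fun ζ G =>
    𝔼 z : Zt n D T, ind (Mn g G (update y u₀ ζ) z (a + 1) b U J), mul_expect]
  refine expect_le_expect fun G _ => ?_
  rw [expect_comm univ univ fun ζ (z : Zt n D T) =>
    ind (Mn g G (update y u₀ ζ) z (a + 1) b U J), mul_expect]
  refine expect_le_expect fun z _ => ?_
  refine (window (w := w) (fun t t' h => (Prod.ext_iff.1 h).2) pc
    (fun ζ => Gam G (update y u₀ ζ) z a U J)
    (fun ζ t x => Gam_congr (fun u _ s hs => ?_) fun _ _ => rfl) hg
    (fun ζ => Low g G (update y u₀ ζ) z b U J) (fun ζ x => Ev G (update y u₀ ζ) z x)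
    fun ζ x h => by simpa only [Ev, update_self, update_idem] using h).trans ?_
  · by_cases h : u = u₀
    · rw [h, update_self, update_self]
      exact update_of_ne (fun h => by rw [h] at hs; exact lt_irrefl _ hs) _ _
    · rw [update_of_ne h, update_of_ne h]
  · refine expect_le_expect fun ζ _ => ind_mono fun h => ⟨hg ?_ h.1, h.2⟩
    have := hw G (update y u₀ ζ) z _ (Nat.lt_succ_self a)
    rwa [update_self] at this

end Pool.Agent.Lib.MP_21ae8a_lc.MC
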